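import Mathlib

/-!
# Root lattices with a group action: the abstract part

`V` is an abelian group with a positive definite even integral form `B`, invariant under an action of
a group `G`. The roots are the elements `x` with `B x x = 2`. If every root is non-orthogonal to only
finitely many roots and `G` acts freely in a strong sense then the classes of roots under the relation
`both are non-orthogonal to some root` are finite and permuted freely by `G`.
-/

set_option autoImplicit false

namespace Pool.Agent.V5helper32.DF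

variable {G V : Type} [Group G] [AddCommGroup V] [DistribMulAction G V]

/-- the assumptions -/
structure Lat (G : Type) {V : Type} [Group G] [AddCommGroup V] [DistribMulAction G V]
    (B : V →+ V →+ ℤ) : Prop where
  symm : ∀ x y, B x y = B y x
  inv : ∀ (g : G) x y, B (g • x) (g • y) = B x y
  pos : ∀ x, x ≠ 0 → 0 < B x x
  fin : ∀ r, {x | B x x = 2 ∧ B x r ≠ 0}.Finite
  free : ∀ (g : G) (x : V) (k : ℕ), 0 < k → x ≠ 0 → g ^ k • x = x → g = 1

variable {B : V →+ V →+ ℤ}

/-- both are non-orthogonal to some root -/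
def D (B : V →+ V →+ ℤ) (r c : V) : Prop := ∃ b, B b b = 2 ∧ B b r ≠ 0 ∧ B b c ≠ 0

namespace Lat

theorem root_ne (_ : Lat G B) {r : V} (h : B r r = 2) : r ≠ 0 := by
  rintro rfl
  simp at h

theorem eq_of_two (h : Lat G B) {x y : V} (hx : B x x = 2) (hy : B y y = 2) (hxy : B x y = 2) :
    x = y := by
  by_contra hne
  have h1 := h.pos (x - y) (sub_ne_zero.2 hne)
  simp only [map_sub, AddMonoidHom.sub_apply] at h1
  rw [h.symm y x] at h1
  omega

theorem abs_le (h : Lat G B) {x y : V} (hx : B x x = 2) (hy : B y y = 2) :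
    B x y = 2 ∨ B x y = -2 ∨ B x y = 1 ∨ B x y = -1 ∨ B x y = 0 := by
  by_cases h1 : x - y = 0
  · have h2 : x = y := sub_eq_zero.1 h1
    subst h2
    exact Or.inl hx
  · by_cases h3 : x + y = 0
    · have h4 : y = -x := by rw [eq_neg_iff_add_eq_zero, add_comm]; exact h3
      subst h4
      rw [map_neg, hx]
      exact Or.inr (Or.inl rfl)
    · have h5 := h.pos _ h1
      have h6 := h.pos _ h3
      simp only [map_sub, map_add, AddMonoidHom.sub_apply, AddMonoidHom.add_apply] at h5 h6
      rw [h.symm y x] at h5 h6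
      omega

theorem D_refl (_ : Lat G B) {r : V} (hr : B r r = 2) : D B r r :=
  ⟨r, hr, by rw [hr]; decide, by rw [hr]; decide⟩

theorem D_symm {r c : V} (h : D B r c) : D B c r := by
  obtain ⟨b, h1, h2, h3⟩ := h
  exact ⟨b, h1, h3, h2⟩

theorem D_of_ne (_ : Lat G B) {r c : V} (hr : B r r = 2) (hrc : B r c ≠ 0) : D B r c :=
  ⟨r, hr, by rw [hr]; decide, hrc⟩

theorem D_next (h : Lat G B) {r c c' : V} (hc : B c c = 2) (hD : D B r c) (hcc : B c c' ≠ 0) :
    D B r c' := by
  obtain ⟨b, h1, h2, h3⟩ := hD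
  by_cases h4 : B b c' ≠ 0
  · exact ⟨b, h1, h2, h4⟩
  push Not at h4
  by_cases h5 : B c r ≠ 0
  · exact ⟨c, hc, h5, hcc⟩
  push Not at h5
  rcases h.abs_le h1 hc with h6 | h6 | h6 | h6 | h6
  · exact absurd (h.eq_of_two h1 hc h6 ▸ h5) h2
  · have h7 : B b (-c) = 2 := by rw [map_neg, h6]; norm_num
    have h8 := h.eq_of_two h1 (by simpa using hc) h7
    rw [h8] at h2
    simp [h5] at h2
  · refine ⟨b - c, ?_, ?_, ?_⟩
    · simp only [map_sub, AddMonoidHom.sub_apply]
      rw [h.symm c b]
      omega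
    · simp only [map_sub, AddMonoidHom.sub_apply]
      rw [h5, sub_zero]
      exact h2
    · simp only [map_sub, AddMonoidHom.sub_apply]
      rw [h4, zero_sub]
      exact neg_ne_zero.2 hcc
  · refine ⟨b + c, ?_, ?_, ?_⟩
    · simp only [map_add, AddMonoidHom.add_apply]
      rw [h.symm c b]
      omega
    · simp only [map_add, AddMonoidHom.add_apply]
      rw [h5, add_zero]
      exact h2
    · simp only [map_add, AddMonoidHom.add_apply]
      rw [h4, zero_add]
      exact hcc
  · exact absurd h6 h3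

theorem D_trans (h : Lat G B) {r c c' : V} (hc : B c c = 2)
    (h1 : D B r c) (h2 : D B c c') : D B r c' := by
  obtain ⟨b, hb, hbc, hbc'⟩ := h2
  exact h.D_next hb (h.D_next hc h1 (by rw [h.symm]; exact hbc)) hbc'

theorem D_smul (h : Lat G B) {r c : V} (g : G) (hD : D B r c) : D B (g • r) (g • c) := by
  obtain ⟨b, h1, h2, h3⟩ := hD
  exact ⟨g • b, by rw [h.inv]; exact h1, by rw [h.inv]; exact h2, by rw [h.inv]; exact h3⟩

theorem D_finite (h : Lat G B) (r : V) : {c | B c c = 2 ∧ D B r c}.Finite := by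
  have h1 : {c | B c c = 2 ∧ D B r c} ⊆ ⋃ b ∈ {x | B x x = 2 ∧ B x r ≠ 0},
      {c | B c c = 2 ∧ B c b ≠ 0} := by
    rintro c ⟨hc, b, hb, hbr, hbc⟩
    simp only [Set.mem_iUnion]
    exact ⟨b, ⟨hb, hbr⟩, hc, by rw [h.symm]; exact hbc⟩
  exact (Set.Finite.biUnion (h.fin r) fun b _ => h.fin b).subset h1

/-- `G` permutes the classes freely -/
theorem D_free (h : Lat G B) {r : V} (hr : B r r = 2) {g : G} (hD : D B r (g • r)) : g = 1 := by
  have hpow : ∀ k : ℕ, D B r (g ^ k • r) := by
    intro k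
    induction k with
    | zero => rw [pow_zero, one_smul]; exact h.D_refl hr
    | succ k ih =>
      have h1 := h.D_smul g ih
      rw [← mul_smul, ← pow_succ'] at h1
      exact h.D_trans (c := g • r) (by rw [h.inv]; exact hr) hD h1
  have hfin := h.D_finite r
  have hmaps : ∀ k : ℕ, g ^ k • r ∈ {c | B c c = 2 ∧ D B r c} := fun k =>
    ⟨by rw [h.inv]; exact hr, hpow k⟩
  obtain ⟨a, b, hab, heq⟩ : ∃ a b : ℕ, a < b ∧ g ^ a • r = g ^ b • r := by
    by_contra hcon
    push Not at hcon
    have hinj : Function.Injective fun k : ℕ => g ^ k • r := by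
      intro a b hab
      rcases lt_trichotomy a b with h1 | h1 | h1
      · exact absurd hab (hcon a b h1)
      · exact h1
      · exact absurd hab.symm (hcon b a h1)
    exact Set.infinite_range_of_injective hinj (hfin.subset (by rintro _ ⟨k, rfl⟩; exact hmaps k))
  refine h.free g r (b - a) (by omega) (h.root_ne hr) ?_
  have h1 : g ^ b = g ^ a * g ^ (b - a) := by rw [← pow_add]; congr 1; omega
  rw [h1, mul_smul] at heq
  exact (smul_left_cancel _ heq).symm

/-- **the fundamental subgroup** -/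
theorem exists_sub (h : Lat G B) :
    ∃ L : AddSubgroup V, (∀ x ∈ L, ∀ y ∈ L, ∀ g : G, g ≠ 1 → B x (g • y) = 0) ∧
      (∀ r, B r r = 2 → ∃ g : G, g • r ∈ L) ∧ L ≤ AddSubgroup.closure {x | B x x = 2} := by
  classical
  -- the roots, their classes modulo `G`
  let Rt := {x : V // B x x = 2}
  let s : Setoid Rt :=
    { r := fun a b => ∃ g : G, D B a.1 (g • b.1)
      iseqv := by
        refine ⟨fun a => ⟨1, by rw [one_smul]; exact h.D_refl a.2⟩, ?_, ?_⟩
        · rintro a b ⟨g, hg⟩
          refine ⟨g⁻¹, ?_⟩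
          have h1 := h.D_smul g⁻¹ hg
          rw [inv_smul_smul] at h1
          exact D_symm h1
        · rintro a b c ⟨g, hg⟩ ⟨k, hk⟩
          refine ⟨g * k, ?_⟩
          have h1 := h.D_smul g hk
          rw [← mul_smul] at h1
          exact h.D_trans (by rw [h.inv]; exact b.2) hg h1 }
  let rep : Rt → Rt := fun a => (Quotient.mk s a).out
  have hrep : ∀ a : Rt, ∃ g : G, D B (rep a).1 (g • a.1) := fun a => Quotient.mk_out (s := s) a
  have hrep2 : ∀ a b : Rt, (∃ g : G, D B a.1 (g • b.1)) → rep a = rep b := by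
    intro a b hab
    have h1 : (Quotient.mk s a) = Quotient.mk s b := Quotient.sound hab
    show (Quotient.mk s a).out = (Quotient.mk s b).out
    rw [h1]
  refine ⟨AddSubgroup.closure {x : V | ∃ hx : B x x = 2, D B (rep ⟨x, hx⟩).1 x}, ?_, ?_,
    AddSubgroup.closure_mono fun x hx => hx.1⟩
  · intro x hx y hy g hg
    induction hx using AddSubgroup.closure_induction with
    | mem x hx =>
      obtain ⟨hx2, hxD⟩ := hx
      induction hy using AddSubgroup.closure_induction with
      | mem y hy =>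
        obtain ⟨hy2, hyD⟩ := hy
        by_contra hne
        have h1 : D B x (g • y) := h.D_of_ne hx2 hne
        have h2 : rep ⟨x, hx2⟩ = rep ⟨y, hy2⟩ := hrep2 _ _ ⟨g, h1⟩
        rw [h2] at hxD
        -- rep ~ x ~ g y, rep ~ y
        have h3 : D B (rep ⟨y, hy2⟩).1 (g • y) := h.D_trans hx2 hxD h1
        have h4 : D B (g • (rep ⟨y, hy2⟩).1) (g • y) := h.D_smul g hyD
        have h5 : D B (rep ⟨y, hy2⟩).1 (g • (rep ⟨y, hy2⟩).1) :=
          h.D_trans (by rw [h.inv]; exact hy2) h3 (D_symm h4)
        exact hg (h.D_free (rep ⟨y, hy2⟩).2 h5)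
      | zero => simp
      | add a b _ _ ha hb => rw [smul_add, map_add, ha, hb, add_zero]
      | neg a _ ha => rw [smul_neg, map_neg, ha, neg_zero]
    | zero => simp
    | add a b _ _ ha hb => rw [map_add, AddMonoidHom.add_apply, ha, hb, add_zero]
    | neg a _ ha => rw [map_neg, AddMonoidHom.neg_apply, ha, neg_zero]
  · intro r hr
    obtain ⟨g, hg⟩ := hrep ⟨r, hr⟩
    refine ⟨g, AddSubgroup.subset_closure ⟨by rw [h.inv]; exact hr, ?_⟩⟩
    have h1 : rep ⟨g • r, by rw [h.inv]; exact hr⟩ = rep ⟨r, hr⟩ :=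
      hrep2 _ _ ⟨g, h.D_refl (by rw [h.inv]; exact hr)⟩
    rw [h1]
    exact hg

end Lat

end Pool.Agent.V5helper32.DF
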