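import Pool.Agent.V5helper32.DF.Bes

/-!
# Definite quadratic forms generated by vectors of length two are extended
-/

set_option autoImplicit false

namespace Pool.Agent.V5helper32.DF

open Matrix TH6.LF

variable {G : Type} [Group G] {n : ℕ}

attribute [local instance] act

/-- the additive group generated by the translates of a subgroup -/
noncomputable def Cl (L : AddSubgroup (Vec G n)) : AddSubgroup (Vec G n) :=
  AddSubgroup.closure {z | ∃ g : G, ∃ y ∈ L, z = g • y}

theorem Cl_mono {L L' : AddSubgroup (Vec G n)} (h : L ≤ L') : Cl L ≤ Cl L' := by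
  apply AddSubgroup.closure_mono
  rintro z ⟨g, y, hy, rfl⟩
  exact ⟨g, y, h hy, rfl⟩

theorem le_Cl (L : AddSubgroup (Vec G n)) : L ≤ Cl L := by
  intro y hy
  exact AddSubgroup.subset_closure ⟨1, y, hy, (one_smul G y).symm⟩

theorem single_smul (g : G) (m : ℤ) (x : Vec G n) :
    (MonoidAlgebra.single g m : MonoidAlgebra ℤ G) • x = g • (m • x) := by
  funext i
  rw [act_apply]
  show MonoidAlgebra.single g m * x i = MonoidAlgebra.single g 1 * (m • x i)
  ext k
  rw [MonoidAlgebra.coeff_single_mul_apply, MonoidAlgebra.coeff_single_mul_apply, coeff_zsmul',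
    one_mul]

theorem Cl_smul (L : AddSubgroup (Vec G n)) (a : MonoidAlgebra ℤ G) {x : Vec G n}
    (hx : x ∈ Cl L) : a • x ∈ Cl L := by
  induction a using MonoidAlgebra.induction_linear with
  | zero => rw [zero_smul]; exact AddSubgroup.zero_mem _
  | add a b ha hb => rw [add_smul]; exact AddSubgroup.add_mem _ ha hb
  | single g m =>
    rw [single_smul]
    have h1 : ∀ y ∈ Cl L, g • y ∈ Cl L := by
      intro y hy
      induction hy using AddSubgroup.closure_induction with
      | mem y hy =>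
        obtain ⟨k, z, hz, rfl⟩ := hy
        exact AddSubgroup.subset_closure ⟨g * k, z, hz, by rw [mul_smul]⟩
      | zero => rw [smul_zero]; exact AddSubgroup.zero_mem _
      | add a b _ _ ha hb => rw [smul_add]; exact AddSubgroup.add_mem _ ha hb
      | neg a _ ha => rw [smul_neg]; exact AddSubgroup.neg_mem _ ha
    exact h1 _ (AddSubgroup.zsmul_mem _ hx m)

theorem Cl_top {L : AddSubgroup (Vec G n)} {S : Set (Vec G n)}
    (hS : Submodule.span (MonoidAlgebra ℤ G) S = ⊤) (h : ∀ s ∈ S, s ∈ Cl L) (x : Vec G n) :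
    x ∈ Cl L := by
  have hx : x ∈ Submodule.span (MonoidAlgebra ℤ G) S := by rw [hS]; trivial
  induction hx using Submodule.span_induction with
  | mem x hx => exact h x hx
  | zero => exact AddSubgroup.zero_mem _
  | add a b _ _ ha hb => exact AddSubgroup.add_mem _ ha hb
  | smul a x _ hx => exact Cl_smul L a hx

theorem Cl_fin {L : AddSubgroup (Vec G n)} {z : Vec G n} (hz : z ∈ Cl L) :
    ∃ s : Finset (Vec G n), (s : Set (Vec G n)) ⊆ L ∧
      z ∈ Cl (AddSubgroup.closure (s : Set (Vec G n))) := by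
  classical
  induction hz using AddSubgroup.closure_induction with
  | mem z hz =>
    obtain ⟨g, y, hy, rfl⟩ := hz
    refine ⟨{y}, by simpa using hy, AddSubgroup.subset_closure ⟨g, y, ?_, rfl⟩⟩
    exact AddSubgroup.subset_closure (by simp)
  | zero => exact ⟨∅, by simp, AddSubgroup.zero_mem _⟩
  | add a b _ _ ha hb =>
    obtain ⟨s, hs, ha⟩ := ha
    obtain ⟨t, ht, hb⟩ := hb
    refine ⟨s ∪ t, by rw [Finset.coe_union]; exact Set.union_subset hs ht,
      AddSubgroup.add_mem _ (Cl_mono (AddSubgroup.closure_mono ?_) ha)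
        (Cl_mono (AddSubgroup.closure_mono ?_) hb)⟩
    · rw [Finset.coe_union]; exact Set.subset_union_left
    · rw [Finset.coe_union]; exact Set.subset_union_right
  | neg a _ ha =>
    obtain ⟨s, hs, ha⟩ := ha
    exact ⟨s, hs, AddSubgroup.neg_mem _ ha⟩

variable {Λ K : Matrix (Fin n) (Fin n) (MonoidAlgebra ℤ G)}

theorem mem_of_Cl (hpos : ∀ x, x ≠ 0 → 0 < Bf Λ x x) {L L1 : AddSubgroup (Vec G n)} (hL : L1 ≤ L)
    (ho : ∀ x ∈ L, ∀ y ∈ L, ∀ g : G, g ≠ 1 → Bf Λ x (g • y) = 0) {x : Vec G n} (hx : x ∈ L)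
    (hx1 : x ∈ Cl L1) : x ∈ L1 := by
  have h1 : ∀ z ∈ Cl L1, ∃ y ∈ L1, ∀ w ∈ L, Bf Λ w (z - y) = 0 := by
    intro z hz
    induction hz using AddSubgroup.closure_induction with
    | mem z hz =>
      obtain ⟨g, y, hy, rfl⟩ := hz
      by_cases hg : g = 1
      · subst hg
        refine ⟨y, hy, fun w _ => ?_⟩
        rw [one_smul, sub_self, map_zero]
      · refine ⟨0, AddSubgroup.zero_mem _, fun w hw => ?_⟩
        rw [sub_zero]
        exact ho w hw y (hL hy) g hg
    | zero => exact ⟨0, AddSubgroup.zero_mem _, fun w _ => by rw [sub_self, map_zero]⟩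
    | add a b _ _ ha hb =>
      obtain ⟨y, hy, h2⟩ := ha
      obtain ⟨y', hy', h3⟩ := hb
      refine ⟨y + y', AddSubgroup.add_mem _ hy hy', fun w hw => ?_⟩
      have : a + b - (y + y') = (a - y) + (b - y') := by abel
      rw [this, map_add, h2 w hw, h3 w hw, add_zero]
    | neg a _ ha =>
      obtain ⟨y, hy, h2⟩ := ha
      refine ⟨-y, AddSubgroup.neg_mem _ hy, fun w hw => ?_⟩
      have : -a - -y = -(a - y) := by abel
      rw [this, map_neg, h2 w hw, neg_zero]
  obtain ⟨y, hy, h2⟩ := h1 x hx1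
  have h3 : x - y = 0 := by
    by_contra hne
    have h4 := hpos _ hne
    rw [h2 (x - y) (AddSubgroup.sub_mem _ hx (hL hy))] at h4
    exact lt_irrefl _ h4
  rw [sub_eq_zero.1 h3]
  exact hy

theorem L_fg (hpos : ∀ x, x ≠ 0 → 0 < Bf Λ x x) {L : AddSubgroup (Vec G n)}
    (ho : ∀ x ∈ L, ∀ y ∈ L, ∀ g : G, g ≠ 1 → Bf Λ x (g • y) = 0) (htop : ∀ x, x ∈ Cl L) :
    L.FG := by
  classical
  choose s hs1 hs2 using fun j : Fin n => Cl_fin (htop (Pi.single j 1))
  have hle : AddSubgroup.closure ((Finset.univ.biUnion s : Finset (Vec G n)) : Set (Vec G n)) ≤ L := by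
    rw [AddSubgroup.closure_le]
    intro x hx
    simp only [Finset.coe_biUnion, Finset.coe_univ, Set.mem_univ, Set.iUnion_true,
      Set.mem_iUnion] at hx
    obtain ⟨j, hj⟩ := hx
    exact hs1 j hj
  have htop1 : ∀ x, x ∈ Cl (AddSubgroup.closure
      ((Finset.univ.biUnion s : Finset (Vec G n)) : Set (Vec G n))) := by
    intro x
    have h1 : x = ∑ j, x j • (Pi.single j (1 : MonoidAlgebra ℤ G) : Vec G n) := by
      funext i
      rw [Finset.sum_apply]
      simp [Pi.single_apply]
    rw [h1]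
    refine AddSubgroup.sum_mem _ fun j _ => Cl_smul _ _ (Cl_mono ?_ (hs2 j))
    apply AddSubgroup.closure_mono
    intro y hy
    simp only [Finset.coe_biUnion, Finset.coe_univ, Set.mem_univ, Set.iUnion_true, Set.mem_iUnion]
    exact ⟨j, hy⟩
  refine ⟨Finset.univ.biUnion s, le_antisymm hle fun x hx => ?_⟩
  exact mem_of_Cl hpos hle ho hx (htop1 x)

/-- independence over the group ring -/
theorem indep (hpos : ∀ x, x ≠ 0 → 0 < Bf Λ x x) {L : AddSubgroup (Vec G n)}
    (ho : ∀ x ∈ L, ∀ y ∈ L, ∀ g : G, g ≠ 1 → Bf Λ x (g • y) = 0) {m : ℕ} (b : Fin m → Vec G n)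
    (hb : ∀ k, b k ∈ L) (hind : ∀ c : Fin m → ℤ, ∑ k, c k • b k = 0 → ∀ k, c k = 0)
    (a : Fin m → MonoidAlgebra ℤ G) (ha : ∑ k, a k • b k = 0) : a = 0 := by
  classical
  obtain ⟨F, hF⟩ : ∃ F : Finset G, F = Finset.univ.biUnion fun k => (a k).coeff.support := ⟨_, rfl⟩
  obtain ⟨y, hy⟩ : ∃ y : G → Vec G n, y = fun g => ∑ k, (a k).coeff g • b k := ⟨_, rfl⟩
  have hyL : ∀ g, y g ∈ L := by
    intro g
    rw [hy]
    exact AddSubgroup.sum_mem _ fun k _ => AddSubgroup.zsmul_mem _ (hb k) _
  have hsum : ∑ g ∈ F, g • y g = 0 := by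
    rw [← ha, hy]
    have h1 : ∀ k, a k • b k = ∑ g ∈ F, g • ((a k).coeff g • b k) := by
      intro k
      have h2 : a k = ∑ g ∈ F, MonoidAlgebra.single g ((a k).coeff g) := by
        ext h
        rw [MonoidAlgebra.coeff_sum, Finsupp.finsetSum_apply]
        by_cases hh : h ∈ F
        · rw [Finset.sum_eq_single_of_mem h hh]
          · simp
          · intro g _ hne
            simp [hne]
        · rw [Finset.sum_eq_zero]
          · by_contra h3
            apply hh
            rw [hF, Finset.mem_biUnion]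
            exact ⟨k, Finset.mem_univ _, Finsupp.mem_support_iff.2 h3⟩
          · intro g hg
            have : g ≠ h := fun h3 => hh (h3 ▸ hg)
            simp [this]
      conv_lhs => rw [h2, Finset.sum_smul]
      exact Finset.sum_congr rfl fun g _ => single_smul _ _ _
    rw [Finset.sum_congr rfl fun k _ => h1 k, Finset.sum_comm]
    refine Finset.sum_congr rfl fun g _ => ?_
    rw [Finset.smul_sum]
  have hy0 : ∀ h ∈ F, y h = 0 := by
    intro h hh
    by_contra hne
    have h1 := hpos _ hne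
    have h2 : Bf Λ (h • y h) (∑ g ∈ F, g • y g) = Bf Λ (y h) (y h) := by
      rw [map_sum, Finset.sum_eq_single_of_mem h hh]
      · exact Bf_inv Λ h _ _
      · intro g _ hgh
        have h3 : g • y g = h • ((h⁻¹ * g) • y g) := by rw [← mul_smul, mul_inv_cancel_left]
        rw [h3, Bf_inv]
        refine ho _ (hyL h) _ (hyL g) _ fun h4 => hgh ?_
        rw [inv_mul_eq_one] at h4
        exact h4.symm
    rw [hsum, map_zero] at h2
    omega
  funext k
  ext g
  by_cases hg : g ∈ F
  · have h1 := hy0 g hg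
    rw [hy] at h1
    exact hind _ h1 k
  · by_contra h3
    apply hg
    rw [hF, Finset.mem_biUnion]
    exact ⟨k, Finset.mem_univ _, Finsupp.mem_support_iff.2 h3⟩

end Pool.Agent.V5helper32.DF
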