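import Pool.Agent.V5helper32.DF.Frm

/-!
# A Bessel inequality, and the supports of the vectors of length two
-/

set_option autoImplicit false

namespace Pool.Agent.V5helper32.DF

open Matrix TH6.LF

open scoped Pointwise

variable {G : Type} [Group G] {n : ℕ}

attribute [local instance] act

variable (Λ K : Matrix (Fin n) (Fin n) (MonoidAlgebra ℤ G))

/-- the dual basis -/
noncomputable def dv (j : Fin n) : Vec G n := fun i => K j i

variable {Λ K}

theorem adj_inv (hΛ : adj Λ = Λ) (h1 : Λ * K = 1) (_ : K * Λ = 1) : adj K = K := by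
  have h3 : adj K * Λ = 1 := by
    have := congrArg adj h1
    rwa [adj_mul, adj_one, hΛ] at this
  calc adj K = adj K * (Λ * K) := by rw [h1, Matrix.mul_one]
    _ = (adj K * Λ) * K := by rw [Matrix.mul_assoc]
    _ = K := by rw [h3, Matrix.one_mul]

theorem fm_dv (hK : adj K = K) (h1 : Λ * K = 1) (x : Vec G n) (j : Fin n) :
    fm Λ x (dv K j) = x j := by
  have h2 : ∀ i, ∑ k, Λ i k * bar (K j k) = if i = j then 1 else 0 := by
    intro i
    have h3 : ∑ k, Λ i k * bar (K j k) = (Λ * adj K) i j := by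
      rw [Matrix.mul_apply]
      rfl
    rw [h3, hK, h1, Matrix.one_apply]
  unfold fm dv
  calc ∑ i, ∑ k, x i * Λ i k * bar (K j k) = ∑ i, x i * ∑ k, Λ i k * bar (K j k) := by
        refine Finset.sum_congr rfl fun i _ => ?_
        rw [Finset.mul_sum]
        exact Finset.sum_congr rfl fun k _ => mul_assoc _ _ _
    _ = ∑ i, x i * (if i = j then 1 else 0) :=
        Finset.sum_congr rfl fun i _ => by rw [h2]
    _ = x j := by simp

theorem Bf_dv (hK : adj K = K) (h1 : Λ * K = 1) (x : Vec G n) (j : Fin n) (g : G) :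
    Bf Λ x (g • dv K j) = (x j).coeff g := by
  rw [← coeff_fm, fm_dv hK h1]

theorem Bf_dv_dv (hK : adj K = K) (h1 : Λ * K = 1) (j j' : Fin n) (g g' : G) :
    Bf Λ (g • dv K j) (g' • dv K j') = (K j j').coeff (g⁻¹ * g') := by
  rw [Bf_dv hK h1, coeff_act]
  rfl

theorem rowsum (a : MonoidAlgebra ℤ G) (g : G) (F : Finset G) :
    ∑ g' ∈ F, (a.coeff (g⁻¹ * g')).natAbs ≤ ∑ h ∈ a.coeff.support, (a.coeff h).natAbs := by
  classical
  rw [← Finset.sum_image (f := fun h => (a.coeff h).natAbs) (g := fun g' => g⁻¹ * g')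
    (fun x _ y _ h => mul_left_cancel h)]
  apply Finset.sum_le_sum_of_ne_zero
  intro h _ hne
  rw [Finsupp.mem_support_iff]
  intro h0
  exact hne (by simp [h0])

/-- the constant -/
noncomputable def cst (K : Matrix (Fin n) (Fin n) (MonoidAlgebra ℤ G)) : ℕ :=
  1 + ∑ j, ∑ j', ∑ h ∈ (K j j').coeff.support, ((K j j').coeff h).natAbs

theorem rowsum' (p : G × Fin n) (F : Finset (G × Fin n)) :
    ∑ q ∈ F, ((K p.2 q.2).coeff (p.1⁻¹ * q.1)).natAbs ≤ cst K := by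
  classical
  have h1 : F ⊆ (F.image Prod.fst) ×ˢ (Finset.univ : Finset (Fin n)) := by
    intro q hq
    rw [Finset.mem_product]
    exact ⟨Finset.mem_image_of_mem _ hq, Finset.mem_univ _⟩
  have h2 : ∑ q ∈ F, ((K p.2 q.2).coeff (p.1⁻¹ * q.1)).natAbs ≤
      ∑ q ∈ (F.image Prod.fst) ×ˢ (Finset.univ : Finset (Fin n)),
        ((K p.2 q.2).coeff (p.1⁻¹ * q.1)).natAbs :=
    Finset.sum_le_sum_of_subset h1
  refine h2.trans ?_
  rw [Finset.sum_product_right]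
  have h3 : ∑ y : Fin n, ∑ x ∈ F.image Prod.fst, ((K p.2 y).coeff (p.1⁻¹ * x)).natAbs ≤
      ∑ j', ∑ h ∈ (K p.2 j').coeff.support, ((K p.2 j').coeff h).natAbs :=
    Finset.sum_le_sum fun y _ => rowsum _ _ _
  refine h3.trans ?_
  unfold cst
  have h4 := Finset.single_le_sum (f := fun j => ∑ j', ∑ h ∈ (K j j').coeff.support,
    ((K j j').coeff h).natAbs) (fun _ _ => Nat.zero_le _) (Finset.mem_univ p.2)
  have h5 : ∑ j', ∑ h ∈ (K p.2 j').coeff.support, ((K p.2 j').coeff h).natAbs ≤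
      ∑ j, ∑ j', ∑ h ∈ (K j j').coeff.support, ((K j j').coeff h).natAbs := h4
  omega

/-- **Bessel's inequality** -/
theorem bessel (hΛ : adj Λ = Λ) (h1 : Λ * K = 1) (h2 : K * Λ = 1)
    (hpos : ∀ x, x ≠ 0 → 0 < Bf Λ x x) (x : Vec G n) (F : Finset (G × Fin n)) :
    ∑ p ∈ F, ((x p.2).coeff p.1) ^ 2 ≤ cst K * Bf Λ x x := by
  classical
  have hK := adj_inv hΛ h1 h2
  have hnn : ∀ z, 0 ≤ Bf Λ z z := by
    intro z
    by_cases hz : z = 0
    · rw [hz]; simp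
    · exact (hpos z hz).le
  obtain ⟨c, hc⟩ : ∃ c : G × Fin n → ℤ, c = fun p => (x p.2).coeff p.1 := ⟨_, rfl⟩
  obtain ⟨v, hv⟩ : ∃ v : G × Fin n → Vec G n, v = fun p => p.1 • dv K p.2 := ⟨_, rfl⟩
  obtain ⟨M, hM⟩ : ∃ M : G × Fin n → G × Fin n → ℤ,
      M = fun p q => (K p.2 q.2).coeff (p.1⁻¹ * q.1) := ⟨_, rfl⟩
  have hvx : ∀ p, Bf Λ x (v p) = c p := by
    intro p
    rw [hv, hc]
    exact Bf_dv hK h1 x p.2 p.1
  have hvv : ∀ p q, Bf Λ (v p) (v q) = M p q := by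
    intro p q
    rw [hv, hM]
    exact Bf_dv_dv hK h1 p.2 q.2 p.1 q.1
  have hMs : ∀ p q, M p q = M q p := by
    intro p q
    rw [← hvv, ← hvv, Bf_symm Λ hΛ]
  have hrow : ∀ p, ∑ q ∈ F, |M p q| ≤ (cst K : ℤ) := by
    intro p
    have h3 := rowsum' (K := K) p F
    have h4 : ∑ q ∈ F, |M p q| = ((∑ q ∈ F, ((K p.2 q.2).coeff (p.1⁻¹ * q.1)).natAbs : ℕ) : ℤ) := by
      rw [Nat.cast_sum, hM]
      exact Finset.sum_congr rfl fun q _ => (Int.natCast_natAbs _).symm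
    rw [h4]
    exact_mod_cast h3
  obtain ⟨y, hy⟩ : ∃ y : Vec G n, y = ∑ p ∈ F, c p • v p := ⟨_, rfl⟩
  obtain ⟨s, hs⟩ : ∃ s : ℤ, s = ∑ p ∈ F, (c p) ^ 2 := ⟨_, rfl⟩
  have hxy : Bf Λ x y = s := by
    rw [hy, hs, map_sum]
    refine Finset.sum_congr rfl fun p _ => ?_
    rw [map_zsmul, hvx, smul_eq_mul, sq]
  have hyy : Bf Λ y y = ∑ p ∈ F, ∑ q ∈ F, c p * c q * M p q := by
    have h3 : ∀ z, Bf Λ z y = ∑ p ∈ F, c p * Bf Λ z (v p) := by
      intro z
      rw [hy, map_sum]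
      refine Finset.sum_congr rfl fun p _ => ?_
      rw [map_zsmul, smul_eq_mul]
    rw [h3]
    refine Finset.sum_congr rfl fun p _ => ?_
    rw [Bf_symm Λ hΛ y (v p), h3, Finset.mul_sum]
    simp only [hvv]
    exact Finset.sum_congr rfl fun q _ => (mul_assoc _ _ _).symm
  have hle : 2 * Bf Λ y y ≤ 2 * (cst K * s) := by
    have e1 : ∀ p q, 2 * (c p * c q * M p q) ≤ |M p q| * (c p) ^ 2 + |M p q| * (c q) ^ 2 := by
      intro p q
      have h3 : 2 * (c p * c q * M p q) ≤ |2 * (c p * c q * M p q)| := le_abs_self _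
      have h4 : |2 * (c p * c q * M p q)| = 2 * (|c p| * |c q|) * |M p q| := by
        rw [abs_mul, abs_mul, abs_mul]
        norm_num
        ring
      have h5 : 2 * (|c p| * |c q|) ≤ (c p) ^ 2 + (c q) ^ 2 := by
        rw [← sq_abs (c p), ← sq_abs (c q)]
        nlinarith [sq_nonneg (|c p| - |c q|)]
      have h6 := mul_le_mul_of_nonneg_right h5 (abs_nonneg (M p q))
      nlinarith
    have e2 : 2 * Bf Λ y y ≤ ∑ p ∈ F, ∑ q ∈ F, (|M p q| * (c p) ^ 2 + |M p q| * (c q) ^ 2) := by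
      rw [hyy, Finset.mul_sum]
      refine Finset.sum_le_sum fun p _ => ?_
      rw [Finset.mul_sum]
      exact Finset.sum_le_sum fun q _ => e1 p q
    have e3 : ∑ p ∈ F, ∑ q ∈ F, |M p q| * (c p) ^ 2 ≤ cst K * s := by
      rw [hs, Finset.mul_sum]
      refine Finset.sum_le_sum fun p _ => ?_
      rw [← Finset.sum_mul]
      exact mul_le_mul_of_nonneg_right (hrow p) (sq_nonneg _)
    have e4 : ∑ p ∈ F, ∑ q ∈ F, |M p q| * (c q) ^ 2 = ∑ p ∈ F, ∑ q ∈ F, |M p q| * (c p) ^ 2 := by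
      rw [Finset.sum_comm]
      refine Finset.sum_congr rfl fun p _ => Finset.sum_congr rfl fun q _ => ?_
      rw [hMs q p]
    have e5 : ∑ p ∈ F, ∑ q ∈ F, (|M p q| * (c p) ^ 2 + |M p q| * (c q) ^ 2) =
        ∑ p ∈ F, ∑ q ∈ F, |M p q| * (c p) ^ 2 + ∑ p ∈ F, ∑ q ∈ F, |M p q| * (c q) ^ 2 := by
      rw [← Finset.sum_add_distrib]
      exact Finset.sum_congr rfl fun p _ => Finset.sum_add_distrib
    rw [e5, e4] at e2
    linarith
  have hfin : 0 ≤ Bf Λ ((cst K : ℤ) • x - y) ((cst K : ℤ) • x - y) := hnn _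
  have hexp : Bf Λ ((cst K : ℤ) • x - y) ((cst K : ℤ) • x - y) =
      (cst K : ℤ) * ((cst K : ℤ) * Bf Λ x x) - 2 * ((cst K : ℤ) * s) + Bf Λ y y := by
    simp only [map_sub, AddMonoidHom.sub_apply, map_zsmul, AddMonoidHom.zsmul_apply, smul_eq_mul]
    rw [Bf_symm Λ hΛ y x, hxy]
    ring
  rw [hexp] at hfin
  have hK0 : (0 : ℤ) < cst K := by
    have : 0 < cst K := by unfold cst; omega
    exact_mod_cast this
  have h3 : (cst K : ℤ) * s ≤ (cst K : ℤ) * ((cst K : ℤ) * Bf Λ x x) := by linarith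
  have h4 := le_of_mul_le_mul_left h3 hK0
  rw [hs, hc] at h4
  exact h4

theorem card_sp (hΛ : adj Λ = Λ) (h1 : Λ * K = 1) (h2 : K * Λ = 1)
    (hpos : ∀ x, x ≠ 0 → 0 < Bf Λ x x) (x : Vec G n) :
    ((sp x).card : ℤ) ≤ cst K * Bf Λ x x := by
  classical
  refine le_trans ?_ (bessel hΛ h1 h2 hpos x (sp x ×ˢ Finset.univ))
  rw [Finset.sum_product]
  have h3 : ((sp x).card : ℤ) = ∑ g ∈ sp x, 1 := by simp
  rw [h3]
  refine Finset.sum_le_sum fun g hg => ?_
  obtain ⟨i, hi⟩ := mem_sp.1 hg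
  refine le_trans ?_ (Finset.single_le_sum (f := fun j => ((x j).coeff g) ^ 2)
    (fun _ _ => sq_nonneg _) (Finset.mem_univ i))
  have : 0 < ((x i).coeff g) ^ 2 := by positivity
  omega

theorem coeff_sq (hΛ : adj Λ = Λ) (h1 : Λ * K = 1) (h2 : K * Λ = 1)
    (hpos : ∀ x, x ≠ 0 → 0 < Bf Λ x x) (x : Vec G n) (i : Fin n) (g : G) :
    ((x i).coeff g) ^ 2 ≤ cst K * Bf Λ x x := by
  have := bessel hΛ h1 h2 hpos x {(g, i)}
  simpa using this

open Classical in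
/-- the support of a vector of length two is connected -/
theorem sp_ball (hΛ : adj Λ = Λ) (h1 : Λ * K = 1) (h2 : K * Λ = 1)
    (hpos : ∀ x, x ≠ 0 → 0 < Bf Λ x x) (heven : ∀ x, Even (Bf Λ x x)) (x : Vec G n)
    (hx : Bf Λ x x = 2) (g0 : G) (hg0 : g0 ∈ sp x) (g : G) (hg : g ∈ sp x) :
    g0⁻¹ * g ∈ (Sf Λ) ^ (2 * cst K) := by
  have h1S : (1 : G) ∈ Sf Λ := by unfold Sf; exact Finset.mem_insert_self _ _
  have hmono : ∀ a b : ℕ, a ≤ b → (Sf Λ) ^ a ⊆ (Sf Λ) ^ b := fun a b hab =>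
    Finset.pow_subset_pow_right h1S hab
  obtain ⟨T, hT⟩ : ∃ T : ℕ → Set G, T = fun k => {g | g0⁻¹ * g ∈ (Sf Λ) ^ k} := ⟨_, rfl⟩
  have hmT : ∀ k g, g ∈ T k ↔ g0⁻¹ * g ∈ (Sf Λ) ^ k := by
    intro k g
    rw [hT]
    rfl
  have hcard : (sp x).card ≤ 2 * cst K := by
    have := card_sp hΛ h1 h2 hpos x
    rw [hx] at this
    have h3 : ((sp x).card : ℤ) ≤ ((2 * cst K : ℕ) : ℤ) := by push_cast; linarith
    exact_mod_cast h3
  obtain ⟨k, hk, hkT⟩ : ∃ k < (sp x).card, ∀ g ∈ sp x, g ∈ T (k + 1) → g ∈ T k := by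
    by_contra hcon
    push Not at hcon
    have hgrow : ∀ k, k ≤ (sp x).card → k + 1 ≤ ((sp x).filter (· ∈ T k)).card := by
      intro k
      induction k with
      | zero =>
        intro _
        have : g0 ∈ (sp x).filter (· ∈ T 0) := by
          rw [Finset.mem_filter, hmT, inv_mul_cancel, pow_zero]
          exact ⟨hg0, Finset.mem_one.2 rfl⟩
        exact Finset.card_pos.2 ⟨g0, this⟩
      | succ k ih =>
        intro hk
        obtain ⟨g, hg, hg1, hg2⟩ := hcon k (by omega)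
        have h3 : (sp x).filter (· ∈ T k) ⊂ (sp x).filter (· ∈ T (k + 1)) := by
          rw [Finset.ssubset_iff_of_subset]
          · exact ⟨g, Finset.mem_filter.2 ⟨hg, hg1⟩, fun h => hg2 (Finset.mem_filter.1 h).2⟩
          · intro u hu
            rw [Finset.mem_filter] at hu ⊢
            refine ⟨hu.1, ?_⟩
            have := hu.2
            rw [hmT] at this ⊢
            exact hmono k (k + 1) (by omega) this
        have h4 := Finset.card_lt_card h3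
        have h5 := ih (by omega)
        omega
    have h3 := hgrow (sp x).card le_rfl
    have h4 : ((sp x).filter (· ∈ T (sp x).card)).card ≤ (sp x).card := Finset.card_filter_le _ _
    omega
  have hab := res_add_compl (T k) x
  have hB : Bf Λ (res (T k) x) (res (T k)ᶜ x) = 0 := by
    by_contra hne
    obtain ⟨u, hu, u', hu', hS⟩ := locality Λ hne
    rw [mem_sp_res] at hu hu'
    apply hu'.1
    apply hkT u' hu'.2
    rw [hmT]
    have h3 : g0⁻¹ * u' = (g0⁻¹ * u) * (u⁻¹ * u') := by group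
    rw [h3, pow_succ]
    exact Finset.mul_mem_mul ((hmT k u).1 hu.1) hS
  have hsum : Bf Λ x x = Bf Λ (res (T k) x) (res (T k) x) +
      Bf Λ (res (T k)ᶜ x) (res (T k)ᶜ x) := by
    conv_lhs => rw [← hab]
    simp only [map_add, AddMonoidHom.add_apply]
    rw [Bf_symm Λ hΛ (res (T k)ᶜ x) (res (T k) x), hB]
    ring
  have hg0a : g0 ∈ sp (res (T k) x) := by
    rw [mem_sp_res]
    refine ⟨?_, hg0⟩
    rw [hmT, inv_mul_cancel]
    exact hmono 0 k (Nat.zero_le _) (by rw [pow_zero]; exact Finset.mem_one.2 rfl)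
  have ha : res (T k) x ≠ 0 := by
    intro h0
    obtain ⟨i, hi⟩ := mem_sp.1 hg0a
    rw [h0] at hi
    simp at hi
  have ha2 := hpos _ ha
  obtain ⟨m, hm⟩ := heven (res (T k) x)
  have hb : res (T k)ᶜ x = 0 := by
    by_contra hne
    have := hpos _ hne
    omega
  have hgT : g ∈ T k := by
    rw [hb, add_zero] at hab
    rw [← hab, mem_sp_res] at hg
    exact hg.1
  rw [hmT] at hgT
  exact hmono k _ (by omega) hgT

theorem coeff_le (hΛ : adj Λ = Λ) (h1 : Λ * K = 1) (h2 : K * Λ = 1)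
    (hpos : ∀ x, x ≠ 0 → 0 < Bf Λ x x) (x : Vec G n) (hx : Bf Λ x x = 2) (i : Fin n) (g : G) :
    (x i).coeff g ∈ Set.Icc (-(2 * cst K : ℤ)) (2 * cst K) := by
  have h3 := coeff_sq hΛ h1 h2 hpos x i g
  rw [hx] at h3
  have h4 : |(x i).coeff g| ≤ 2 * cst K := by
    have h5 : |(x i).coeff g| ≤ ((x i).coeff g) ^ 2 := by
      rw [← sq_abs]
      rcases eq_or_ne ((x i).coeff g) 0 with h0 | h0
      · rw [h0]; simp
      · have : 1 ≤ |(x i).coeff g| := Int.one_le_abs h0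
        nlinarith
    linarith
  exact abs_le.1 h4

theorem fin_box (F : Finset G) (c : ℤ) :
    {x : Vec G n | sp x ⊆ F ∧ ∀ i g, (x i).coeff g ∈ Set.Icc (-c) c}.Finite := by
  let φ : Vec G n → (Fin n → F → ℤ) := fun x i g => (x i).coeff g.1
  refine Set.Finite.of_finite_image (f := φ) ?_ ?_
  · refine Set.Finite.subset (Set.Finite.pi (t := fun _ : Fin n =>
      Set.pi Set.univ fun _ : F => Set.Icc (-c) c)
      (fun i => Set.Finite.pi fun _ => Set.finite_Icc _ _)) ?_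
    rintro _ ⟨x, hx, rfl⟩ i _ g _
    exact hx.2 i g.1
  · intro x hx y hy hxy
    funext i
    ext g
    by_cases hg : g ∈ F
    · exact congrFun (congrFun hxy i) ⟨g, hg⟩
    · have h3 : ∀ z : Vec G n, sp z ⊆ F → (z i).coeff g = 0 := by
        intro z hz
        by_contra hne
        exact hg (hz (mem_sp.2 ⟨i, hne⟩))
      rw [h3 x hx.1, h3 y hy.1]

open Classical in
theorem fin_nbr (hΛ : adj Λ = Λ) (h1 : Λ * K = 1) (h2 : K * Λ = 1)
    (hpos : ∀ x, x ≠ 0 → 0 < Bf Λ x x) (heven : ∀ x, Even (Bf Λ x x)) (r : Vec G n) :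
    {x | Bf Λ x x = 2 ∧ Bf Λ x r ≠ 0}.Finite := by
  obtain ⟨F, hF⟩ : ∃ F : Finset G, F = sp r * (Sf Λ)⁻¹ * (Sf Λ) ^ (2 * cst K) := ⟨_, rfl⟩
  refine (fin_box F (2 * cst K)).subset ?_
  rintro x ⟨hx, hxr⟩
  refine ⟨fun g hg => ?_, fun i g => coeff_le hΛ h1 h2 hpos x hx i g⟩
  obtain ⟨u, hu, u', hu', hS⟩ := locality Λ hxr
  have h3 := sp_ball hΛ h1 h2 hpos heven x hx u hu g hg
  rw [hF]
  have h4 : g = u' * (u⁻¹ * u')⁻¹ * (u⁻¹ * g) := by group
  rw [h4]
  exact Finset.mul_mem_mul (Finset.mul_mem_mul hu' (Finset.inv_mem_inv hS)) h3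

open Classical in
theorem fin_orb (hΛ : adj Λ = Λ) (h1 : Λ * K = 1) (h2 : K * Λ = 1)
    (hpos : ∀ x, x ≠ 0 → 0 < Bf Λ x x) (heven : ∀ x, Even (Bf Λ x x)) :
    {x | Bf Λ x x = 2 ∧ (1 : G) ∈ sp x}.Finite := by
  refine (fin_box ((Sf Λ) ^ (2 * cst K)) (2 * cst K)).subset ?_
  rintro x ⟨hx, hx1⟩
  refine ⟨fun g hg => ?_, fun i g => coeff_le hΛ h1 h2 hpos x hx i g⟩
  have h3 := sp_ball hΛ h1 h2 hpos heven x hx 1 hx1 g hg
  simpa using h3

end Pool.Agent.V5helper32.DF
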