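import Pool.Agent.V5helper32.DF.Exm

/-!
# A definite quadratic form of rank eight, for each nontrivial torsion-free group, not extended

The form has a basis with seven vectors of length two and one vector of length four.
-/

set_option autoImplicit false

namespace Pool.Agent.V5helper32.DF

open Matrix TH6.LF

variable {G : Type} [Group G] (s : G)

/-- the homomorphism from the Laurent polynomials given by the element `s` -/
noncomputable def ph : R →+* MonoidAlgebra ℤ G :=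
  MonoidAlgebra.mapDomainRingHom ℤ (zpowersHom G s : Multiplicative ℤ →* G)

theorem ph_t (k : ℤ) : ph s (t k) = MonoidAlgebra.single (s ^ k) 1 := by
  unfold ph t
  show MonoidAlgebra.mapDomain _ (MonoidAlgebra.single _ _) = _
  rw [MonoidAlgebra.mapDomain_single]
  rfl

theorem bar_ph (x : R) : bar (ph s x) = ph s (bar x) := by
  induction x using MonoidAlgebra.induction_linear with
  | zero => rw [bar_zero, map_zero]; exact bar_zero
  | add a b ha hb => rw [bar_add, map_add, map_add, bar_add, ha, hb]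
  | single g m =>
    rw [bar_single]
    have h : ∀ (g : Z) (m : ℤ), ph s (MonoidAlgebra.single g m) =
        MonoidAlgebra.single (zpowersHom G s g) m := by
      intro g m
      show MonoidAlgebra.mapDomain _ (MonoidAlgebra.single _ _) = _
      rw [MonoidAlgebra.mapDomain_single]
      try rfl
    rw [h, h, bar_single, map_inv]

theorem ph_two : ph s 2 = 2 := map_ofNat (ph s) 2

/-- the matrix version -/
noncomputable def Ph {κ μ : Type} (M : Matrix κ μ R) : Matrix κ μ (MonoidAlgebra ℤ G) :=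
  M.map (ph s)

theorem Ph_adj {κ μ : Type} (M : Matrix κ μ R) : adj (Ph s M) = Ph s (adj M) := by
  ext1 i j
  exact bar_ph s _

theorem Ph_mul {κ μ ν : Type} [Fintype μ] (M : Matrix κ μ R) (N : Matrix μ ν R) :
    Ph s (M * N) = Ph s M * Ph s N := Matrix.map_mul

theorem Ph_add {κ μ : Type} (M N : Matrix κ μ R) : Ph s (M + N) = Ph s M + Ph s N := by
  ext1 i j
  exact map_add (ph s) _ _

theorem Ph_one {κ : Type} [DecidableEq κ] : Ph s (1 : Matrix κ κ R) = 1 :=
  Matrix.map_one _ (map_zero _) (map_one _)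

theorem Ph_smul {κ μ : Type} (k : ℤ) (M : Matrix κ μ R) : Ph s (k • M) = k • Ph s M := by
  ext1 i j
  exact map_zsmul (ph s) _ _

theorem psi_add : Ph s ψ8 + adj (Ph s ψ8) = Ph s Λ8 := by
  rw [Ph_adj, ← Ph_add, ψ8_add]

theorem La_mul : Ph s Λ8 * Ph s K8 = 1 := by rw [← Ph_mul, Λ8_mul, Ph_one]

theorem mul_La : Ph s K8 * Ph s Λ8 = 1 := by rw [← Ph_mul, mul_Λ8, Ph_one]

theorem Be_mul : Ph s B8 * adj (Ph s B8) = (4 : ℤ) • Ph s Λ8 := by
  rw [Ph_adj, ← Ph_mul, B8_mul, Ph_smul]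

/-- twice the coordinates of a vector -/
noncomputable def zz (x : Vec G 8) (j : Fin 8) : MonoidAlgebra ℤ G := ∑ i, x i * Ph s B8 i j

theorem four_fm (x : Vec G 8) :
    (4 : ℤ) • fm (Ph s Λ8) x x = ∑ j, zz s x j * bar (zz s x j) := by
  have h1 : (4 : ℤ) • fm (Ph s Λ8) x x = fm ((4 : ℤ) • Ph s Λ8) x x := by
    unfold fm
    rw [Finset.smul_sum]
    refine Finset.sum_congr rfl fun i _ => ?_
    rw [Finset.smul_sum]
    refine Finset.sum_congr rfl fun j _ => ?_
    rw [Matrix.smul_apply, mul_smul_comm, smul_mul_assoc]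
  obtain ⟨E, hE⟩ : ∃ E : Matrix (Fin 1) (Fin 8) (MonoidAlgebra ℤ G), E = fun _ => x := ⟨_, rfl⟩
  have h2 := mul_fm (Ph s B8 * adj (Ph s B8)) E E 0 0
  rw [hE] at h2
  rw [h1, ← Be_mul, ← h2, ← hE]
  have h3 : E * (Ph s B8 * adj (Ph s B8)) * adj E = (E * Ph s B8) * adj (E * Ph s B8) := by
    rw [adj_mul]
    simp only [Matrix.mul_assoc]
  rw [h3, Matrix.mul_apply]
  refine Finset.sum_congr rfl fun j _ => ?_
  have h4 : (E * Ph s B8) 0 j = zz s x j := by
    rw [Matrix.mul_apply, hE]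
    rfl
  rw [adj_apply, h4]

theorem coeff_norm (a : MonoidAlgebra ℤ G) :
    (a * bar a).coeff 1 = ∑ g ∈ a.coeff.support, (a.coeff g) ^ 2 := by
  rw [MonoidAlgebra.coeff_mul_apply_left, Finsupp.sum]
  refine Finset.sum_congr rfl fun g _ => ?_
  rw [coeff_bar, mul_one, inv_inv, sq]

theorem eight (x : Vec G 8) : 8 * (fm (Ph s ψ8) x x).coeff 1 =
    ∑ j, ∑ g ∈ (zz s x j).coeff.support, ((zz s x j).coeff g) ^ 2 := by
  have h1 := congrArg (fun a : MonoidAlgebra ℤ G => a.coeff 1) (four_fm s x)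
  simp only [coeff_zsmul'] at h1
  rw [MonoidAlgebra.coeff_sum, Finsupp.finsetSum_apply] at h1
  simp only [coeff_norm] at h1
  have h2 := Bf_self (Ph s ψ8) x
  rw [Bf_apply, psi_add] at h2
  rw [← h1, h2]
  ring

theorem eight_le (x : Vec G 8) (F : Finset G) :
    ∑ g ∈ F, ∑ j, ((zz s x j).coeff g) ^ 2 ≤ 8 * (fm (Ph s ψ8) x x).coeff 1 := by
  classical
  rw [eight, Finset.sum_comm]
  refine Finset.sum_le_sum fun j _ => ?_
  refine (Finset.sum_le_sum_of_subset_of_nonneg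
    (Finset.subset_union_left (s₁ := F) (s₂ := (zz s x j).coeff.support))
    fun _ _ _ => sq_nonneg _).trans (le_of_eq ?_)
  symm
  apply Finset.sum_subset Finset.subset_union_right
  intro g _ hg
  rw [Finsupp.notMem_support_iff.1 hg]
  norm_num

theorem psi_pos (x : Vec G 8) (hx : x ≠ 0) : 0 < (fm (Ph s ψ8) x x).coeff 1 := by
  by_contra hcon
  apply hx
  have h1 : ∀ j, zz s x j = 0 := by
    intro j
    ext g
    have h2 := eight_le s x {g}
    rw [Finset.sum_singleton] at h2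
    have h3 := Finset.single_le_sum (f := fun j => ((zz s x j).coeff g) ^ 2)
      (fun _ _ => sq_nonneg _) (Finset.mem_univ j)
    have h4 : ((zz s x j).coeff g) ^ 2 ≤ 0 := by
      refine h3.trans (h2.trans ?_)
      push Not at hcon
      omega
    have h5 : (zz s x j).coeff g = 0 := by
      have := sq_nonneg ((zz s x j).coeff g)
      exact pow_eq_zero_iff (two_ne_zero) |>.1 (le_antisymm h4 this)
    rw [h5]
    rfl
  obtain ⟨E, hE⟩ : ∃ E : Matrix (Fin 1) (Fin 8) (MonoidAlgebra ℤ G), E = fun _ => x := ⟨_, rfl⟩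
  have h2 : E * Ph s B8 = 0 := by
    ext1 i j
    rw [Matrix.mul_apply, hE]
    exact h1 j
  have h3 : (4 : ℤ) • E = 0 := by
    calc (4 : ℤ) • E = ((4 : ℤ) • E) * (Ph s Λ8 * Ph s K8) := by rw [La_mul, Matrix.mul_one]
      _ = E * ((4 : ℤ) • Ph s Λ8) * Ph s K8 := by
        rw [Matrix.smul_mul, ← Matrix.mul_assoc, Matrix.mul_smul, Matrix.smul_mul]
      _ = 0 := by rw [← Be_mul, ← Matrix.mul_assoc, h2, Matrix.zero_mul, Matrix.zero_mul]
  funext i
  ext g
  have h4 := congrArg (fun M : Matrix (Fin 1) (Fin 8) (MonoidAlgebra ℤ G) => (M 0 i).coeff g) h3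
  simp only [Matrix.smul_apply, coeff_zsmul'] at h4
  rw [hE] at h4
  have h5 : 4 * (x i).coeff g = 0 := h4
  have h6 : (x i).coeff g = 0 := by omega
  rw [h6]
  rfl

theorem zz_eq (x : Vec G 8) (j : Fin 8) : ∃ y, zz s x j = x 0 + (y + y) := by
  unfold zz Ph
  fin_cases j
  · exact ⟨x 0 * ph s X + x 1 + x 2, by simp [B8, Fin.sum_univ_succ, ph_two]; noncomm_ring⟩
  · exact ⟨x 1 - x 2 + x 3, by simp [B8, Fin.sum_univ_succ, ph_two]; noncomm_ring⟩
  · exact ⟨x 4 - x 3, by simp [B8, Fin.sum_univ_succ, ph_two]; noncomm_ring⟩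
  · exact ⟨x 5 - x 4, by simp [B8, Fin.sum_univ_succ, ph_two]; noncomm_ring⟩
  · exact ⟨x 6 - x 5, by simp [B8, Fin.sum_univ_succ, ph_two]; noncomm_ring⟩
  · exact ⟨x 7 - x 6, by simp [B8, Fin.sum_univ_succ, ph_two]; noncomm_ring⟩
  · exact ⟨- x 7, by simp [B8, Fin.sum_univ_succ, ph_two]; noncomm_ring⟩
  · exact ⟨0, by simp [B8, Fin.sum_univ_succ, ph_two]⟩

theorem zz_sum (x : Vec G 8) :
    ∑ j, zz s x j = (x 0 * ph s X + x 0 * ph s X) + (4 : ℤ) • (x 0 + x 0 + x 1) := by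
  unfold zz Ph
  simp [B8, Fin.sum_univ_succ, ph_two]
  noncomm_ring

theorem coeff_mul_X (a : MonoidAlgebra ℤ G) (g : G) :
    (a * ph s X).coeff g = a.coeff (g * s⁻¹) + a.coeff (g * s) := by
  unfold X
  rw [map_add, ph_t, ph_t, mul_add, coeff_add', MonoidAlgebra.coeff_mul_single_apply,
    MonoidAlgebra.coeff_mul_single_apply, mul_one, mul_one]
  simp

theorem odd_zz (x : Vec G 8) (g : G) (h : ¬ Even ((x 0).coeff g)) (j : Fin 8) :
    1 ≤ ((zz s x j).coeff g) ^ 2 := by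
  obtain ⟨y, hy⟩ := zz_eq s x j
  rw [hy, coeff_add', coeff_add']
  have h1 : (x 0).coeff g + (y.coeff g + y.coeff g) ≠ 0 := by
    intro h0
    exact h ⟨- y.coeff g, by linarith⟩
  have : 0 < ((x 0).coeff g + (y.coeff g + y.coeff g)) ^ 2 := by positivity
  omega

theorem root_even (hs : s ≠ 1) (hs2 : s * s ≠ 1) (x : Vec G 8)
    (hx : (fm (Ph s ψ8) x x).coeff 1 = 1) (g : G) : Even ((x 0).coeff g) := by
  classical
  by_contra hodd
  have h8 : ∀ h, ¬ Even ((x 0).coeff h) → 8 ≤ ∑ j, ((zz s x j).coeff h) ^ 2 := by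
    intro h hh
    calc (8 : ℤ) = ∑ _j : Fin 8, 1 := by simp
      _ ≤ ∑ j, ((zz s x j).coeff h) ^ 2 := Finset.sum_le_sum fun j _ => odd_zz s x h hh j
  have hzero : ∀ h, h ≠ g → ∀ j, (zz s x j).coeff h = 0 := by
    intro h hne j
    have h1 := eight_le s x {g, h}
    rw [Finset.sum_pair hne.symm, hx] at h1
    have h2 := h8 g hodd
    have h3 := Finset.single_le_sum (f := fun j => ((zz s x j).coeff h) ^ 2)
      (fun _ _ => sq_nonneg _) (Finset.mem_univ j)
    have h4 : ((zz s x j).coeff h) ^ 2 ≤ 0 := by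
      refine h3.trans ?_
      linarith
    exact (pow_eq_zero_iff two_ne_zero).1 (le_antisymm h4 (sq_nonneg _))
  have h1 := congrArg (fun a : MonoidAlgebra ℤ G => a.coeff (g * s)) (zz_sum s x)
  simp only [coeff_add', coeff_zsmul', coeff_mul_X] at h1
  rw [MonoidAlgebra.coeff_sum, Finsupp.finsetSum_apply, Finset.sum_eq_zero fun j _ => hzero _ (by
      intro h; exact hs (mul_eq_left.1 h)) j] at h1
  rw [mul_inv_cancel_right] at h1
  have h2 : ¬ Even ((x 0).coeff (g * s * s)) := by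
    intro he
    apply hodd
    obtain ⟨e, he⟩ := he
    rw [he] at h1
    refine ⟨-(e + (x 0).coeff (g * s) + (x 0).coeff (g * s) + (x 1).coeff (g * s)), ?_⟩
    linarith
  have h3 := odd_zz s x _ h2 0
  rw [hzero _ (by intro h; rw [mul_assoc] at h; exact hs2 (mul_eq_left.1 h)) 0] at h3
  norm_num at h3

/-- the change of the basis of the augmented form -/
noncomputable def P8 (a : MonoidAlgebra ℤ G) : Matrix (Fin 8) (Fin 8) (MonoidAlgebra ℤ G) :=
  !![1, a, a, 0, 0, 0, 0, 0;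
     0, 1, 0, 0, 0, 0, 0, 0;
     0, 0, 1, 0, 0, 0, 0, 0;
     0, 0, 0, 1, 0, 0, 0, 0;
     0, 0, 0, 0, 1, 0, 0, 0;
     0, 0, 0, 0, 0, 1, 0, 0;
     0, 0, 0, 0, 0, 0, 1, 0;
     0, 0, 0, 0, 0, 0, 0, 1]

theorem P8_mul : P8 (1 : MonoidAlgebra ℤ G) * P8 (-1) = 1 := by
  ext1 i j
  rw [Matrix.mul_apply]
  fin_cases i <;> fin_cases j <;>
    simp [P8, Fin.sum_univ_succ]

theorem tr_ph_t (k : ℤ) : tr (ph s (t k)) = 1 := by
  rw [ph_t, tr_single, MonoidAlgebra.one_def]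

theorem tr_int (k : ℤ) : tr (k : MonoidAlgebra ℤ G) = k := by
  rw [tr_eq, map_intCast]

theorem Tr_psi : Tr (Ph s ψ8) = !![4, 3, 2, 0, 0, 0, 0, 0;
     0, 1, 0, 1, 0, 0, 0, 0;
     0, 0, 1, -1, 0, 0, 0, 0;
     0, 0, 0, 1, -1, 0, 0, 0;
     0, 0, 0, 0, 1, -1, 0, 0;
     0, 0, 0, 0, 0, 1, -1, 0;
     0, 0, 0, 0, 0, 0, 1, -1;
     0, 0, 0, 0, 0, 0, 0, 1] := by
  have h2 : tr (2 : MonoidAlgebra ℤ G) = 2 := by exact_mod_cast tr_int 2
  have h1 : tr (1 : MonoidAlgebra ℤ G) = 1 := by exact_mod_cast tr_int 1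
  have h1' : tr (-1 : MonoidAlgebra ℤ G) = -1 := by exact_mod_cast tr_int (-1)
  have h0 : tr (0 : MonoidAlgebra ℤ G) = 0 := by exact_mod_cast tr_int 0
  have hX : tr (ph s X) = 2 := by
    unfold X
    rw [map_add, tr_add, tr_ph_t, tr_ph_t]
    norm_num
  ext1 i j
  fin_cases i <;> fin_cases j <;>
    simp [Tr, Ph, ψ8, tr_add, tr_ph_t, ph_two, h2, h1, h1', h0, hX]
  all_goals norm_num

theorem P8_diag (i : Fin 8) :
    (P8 (-1) * Tr (Ph s ψ8) * adj (P8 (-1)) : Matrix (Fin 8) (Fin 8) (MonoidAlgebra ℤ G)) i i =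
      1 := by
  rw [Tr_psi, Matrix.mul_apply]
  simp only [Matrix.mul_apply, adj_apply]
  fin_cases i <;>
    simp [P8, Fin.sum_univ_succ, bar_neg]
  all_goals norm_num

/-- **the form is not extended** -/
theorem psi_not (hs : s ≠ 1) (hs2 : s * s ≠ 1) (E E' χ : Matrix (Fin 8) (Fin 8) (MonoidAlgebra ℤ G))
    (h2 : E' * E = 1) (h : E * Ph s ψ8 * adj E = Tr (Ph s ψ8) + (χ - adj χ)) : False := by
  obtain ⟨F, hF⟩ : ∃ F, F = P8 (-1) * E := ⟨_, rfl⟩
  have h3 : (E' * P8 1) * F = 1 := by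
    rw [hF]
    calc E' * P8 1 * (P8 (-1) * E) = E' * (P8 1 * P8 (-1)) * E := by simp only [Matrix.mul_assoc]
      _ = 1 := by rw [P8_mul, Matrix.mul_one, h2]
  have h4 : F * Ph s ψ8 * adj F = P8 (-1) * Tr (Ph s ψ8) * adj (P8 (-1)) +
      (P8 (-1) * χ * adj (P8 (-1)) - adj (P8 (-1) * χ * adj (P8 (-1)))) := by
    rw [hF, adj_mul, ← adj_chi, ← Matrix.add_mul, ← Matrix.mul_add, ← h]
    simp only [Matrix.mul_assoc]
  have h5 : ∀ k g, Even ((F k 0).coeff g) := by
    intro k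
    apply root_even s hs hs2 (F k)
    rw [← mul_fm, h4, Matrix.add_apply, Matrix.sub_apply, coeff_add', coeff_sub', coeff_adj,
      inv_one, sub_self, add_zero, P8_diag, MonoidAlgebra.one_def]
    simp
  have h6 := congrArg (fun M : Matrix (Fin 8) (Fin 8) (MonoidAlgebra ℤ G) => (M 0 0).coeff 1) h3
  simp only [Matrix.mul_apply (M := E' * P8 1) (N := F)] at h6
  have h8 : (1 : MonoidAlgebra ℤ G).coeff 1 = 1 := by rw [MonoidAlgebra.one_def]; simp
  rw [MonoidAlgebra.coeff_sum, Finsupp.finsetSum_apply, Matrix.one_apply_eq, h8] at h6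
  have h7 : Even (∑ k, (((E' * (P8 1 : Matrix (Fin 8) (Fin 8) (MonoidAlgebra ℤ G))) 0 k) *
      F k 0).coeff 1) := by
    refine Finset.even_sum _ fun k _ => ?_
    rw [MonoidAlgebra.coeff_mul_apply_left, Finsupp.sum]
    exact Finset.even_sum _ fun g _ => (h5 k _).mul_left _
  rw [h6] at h7
  simp at h7

end Pool.Agent.V5helper32.DF
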