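import Pool.Agent.V5helper32.DF.Fnl

/-!
# A definite quadratic form of rank eight over the Laurent polynomials which is not extended

The form has a basis with seven vectors of length two and one vector of length four.
-/

set_option autoImplicit false

namespace Pool.Agent.V5helper32.DF

open Matrix TH6.LF

/-- the infinite cyclic group -/
abbrev Z : Type := Multiplicative ℤ

/-- the Laurent polynomials -/
abbrev R : Type := MonoidAlgebra ℤ Z

/-- the generator -/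
noncomputable def t (k : ℤ) : R := MonoidAlgebra.single (Multiplicative.ofAdd k) 1

theorem t_mul (k l : ℤ) : t k * t l = t (k + l) := by
  unfold t
  rw [MonoidAlgebra.single_mul_single, one_mul, ofAdd_add]

theorem t_zero : t 0 = 1 := by
  unfold t
  rw [ofAdd_zero, MonoidAlgebra.one_def]

theorem bar_t (k : ℤ) : bar (t k) = t (-k) := by
  unfold t
  rw [bar_single, ofAdd_neg]

/-- `t + t⁻¹` -/
noncomputable def X : R := t 1 + t (-1)

theorem bar_X : bar X = X := by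
  unfold X
  rw [bar_add, bar_t, bar_t, neg_neg, add_comm]

/-- the quadratic form -/
noncomputable def ψ8 : Matrix (Fin 8) (Fin 8) R :=
  !![t 2 + t 1 + 2, X + 1, X, 0, 0, 0, 0, 0;
     0, 1, 0, 1, 0, 0, 0, 0;
     0, 0, 1, -1, 0, 0, 0, 0;
     0, 0, 0, 1, -1, 0, 0, 0;
     0, 0, 0, 0, 1, -1, 0, 0;
     0, 0, 0, 0, 0, 1, -1, 0;
     0, 0, 0, 0, 0, 0, 1, -1;
     0, 0, 0, 0, 0, 0, 0, 1]

/-- its symmetrization -/
noncomputable def Λ8 : Matrix (Fin 8) (Fin 8) R :=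
  !![X * X + X + 2, X + 1, X, 0, 0, 0, 0, 0;
     X + 1, 2, 0, 1, 0, 0, 0, 0;
     X, 0, 2, -1, 0, 0, 0, 0;
     0, 1, -1, 2, -1, 0, 0, 0;
     0, 0, 0, -1, 2, -1, 0, 0;
     0, 0, 0, 0, -1, 2, -1, 0;
     0, 0, 0, 0, 0, -1, 2, -1;
     0, 0, 0, 0, 0, 0, -1, 2]

/-- twice the coordinates -/
noncomputable def B8 : Matrix (Fin 8) (Fin 8) R :=
  !![2 * X + 1, 1, 1, 1, 1, 1, 1, 1;
     2, 2, 0, 0, 0, 0, 0, 0;
     2, -2, 0, 0, 0, 0, 0, 0;
     0, 2, -2, 0, 0, 0, 0, 0;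
     0, 0, 2, -2, 0, 0, 0, 0;
     0, 0, 0, 2, -2, 0, 0, 0;
     0, 0, 0, 0, 2, -2, 0, 0;
     0, 0, 0, 0, 0, 2, -2, 0]

theorem bar_int (k : ℤ) : bar (k : R) = k := by
  have h : (k : R) = k • (1 : R) := by rw [zsmul_one]
  rw [h, bar_zsmul, bar_one]

theorem bar_two : bar (2 : R) = 2 := by exact_mod_cast bar_int 2

theorem ψ8_add : ψ8 + adj ψ8 = Λ8 := by
  have e1 : X * X = t 2 + 2 + t (-2) := by
    unfold X
    rw [mul_add, add_mul, add_mul, t_mul, t_mul, t_mul, t_mul]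
    norm_num
    rw [t_zero]
    ring
  ext1 i j
  rw [Matrix.add_apply, adj_apply]
  fin_cases i <;> fin_cases j <;>
    simp [ψ8, Λ8, bar_add, bar_X, bar_two, bar_neg, bar_t]
  all_goals first
    | norm_num; done
    | rw [e1]; unfold X; ring

/-- the inverse -/
noncomputable def K8 : Matrix (Fin 8) (Fin 8) R :=
  !![4, -7 - 2 * X, 5 - 2 * X, 10, 8, 6, 4, 2;
     -7 - 2 * X, 14 + 7 * X + X * X, -10 + X + X * X, -20 - 5 * X, -16 - 4 * X, -12 - 3 * X,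
       -8 - 2 * X, -4 - X;
     5 - 2 * X, -10 + X + X * X, 8 - 5 * X + X * X, 15 - 5 * X, 12 - 4 * X, 9 - 3 * X, 6 - 2 * X,
       3 - X;
     10, -20 - 5 * X, 15 - 5 * X, 30, 24, 18, 12, 6;
     8, -16 - 4 * X, 12 - 4 * X, 24, 20, 15, 10, 5;
     6, -12 - 3 * X, 9 - 3 * X, 18, 15, 12, 8, 4;
     4, -8 - 2 * X, 6 - 2 * X, 12, 10, 8, 6, 3;
     2, -4 - X, 3 - X, 6, 5, 4, 3, 2]

theorem Λ8_mul : Λ8 * K8 = 1 := by
  ext1 i j
  rw [Matrix.mul_apply]
  fin_cases i <;> fin_cases j <;>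
    simp [Λ8, K8, Fin.sum_univ_succ] <;> ring

theorem mul_Λ8 : K8 * Λ8 = 1 := by
  rw [mul_eq_one_comm]
  exact Λ8_mul

theorem B8_mul : B8 * adj B8 = (4 : ℤ) • Λ8 := by
  ext1 i j
  rw [Matrix.mul_apply, Matrix.smul_apply]
  simp only [adj_apply]
  fin_cases i <;> fin_cases j <;>
    simp [Λ8, B8, Fin.sum_univ_succ, bar_add, bar_X, bar_two, bar_neg, bar_mul] <;> ring

end Pool.Agent.V5helper32.DF
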