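import Pool.Agent.V5helper32.DF.Mn

/-!
# Definite quadratic forms generated by vectors of length two are extended from the integers
-/

set_option autoImplicit false

namespace Pool.Agent.V5helper32.DF

open Matrix TH6.LF

variable {G : Type} [Group G] {n : ℕ}

attribute [local instance] act

/-- replace each group element by the identity -/
noncomputable def tr (x : MonoidAlgebra ℤ G) : MonoidAlgebra ℤ G :=
  MonoidAlgebra.mapDomain (fun _ => (1 : G)) x

theorem tr_eq (x : MonoidAlgebra ℤ G) : tr x = MonoidAlgebra.mapDomainRingHom ℤ (1 : G →* G) x := rfl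

theorem coeff_tr_ne (x : MonoidAlgebra ℤ G) {g : G} (hg : g ≠ 1) : (tr x).coeff g = 0 := by
  unfold tr
  rw [MonoidAlgebra.coeff_mapDomain]
  apply Finsupp.mapDomain_of_notMem_range
  rintro ⟨y, hy⟩
  exact hg hy.symm

theorem bar_tr (x : MonoidAlgebra ℤ G) : bar (tr x) = tr x := by
  ext g
  rw [coeff_bar]
  by_cases hg : g = 1
  · rw [hg, inv_one]
  · rw [coeff_tr_ne _ hg, coeff_tr_ne _ (fun h => hg (inv_eq_one.1 h))]

theorem tr_single (g : G) (m : ℤ) : tr (MonoidAlgebra.single g m) = MonoidAlgebra.single 1 m := by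
  unfold tr
  rw [MonoidAlgebra.mapDomain_single]

theorem tr_add (x y : MonoidAlgebra ℤ G) : tr (x + y) = tr x + tr y := by
  rw [tr_eq, tr_eq, tr_eq, map_add]

theorem tr_bar (x : MonoidAlgebra ℤ G) : tr (bar x) = tr x := by
  induction x using MonoidAlgebra.induction_linear with
  | zero => rw [bar_zero]
  | add a b ha hb => rw [bar_add, tr_add, tr_add, ha, hb]
  | single g m => rw [bar_single, tr_single, tr_single]

theorem tr_of (x : MonoidAlgebra ℤ G) (h : ∀ g, g ≠ 1 → x.coeff g = 0) : tr x = x := by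
  have h1 : x = MonoidAlgebra.single 1 (x.coeff 1) := by
    ext g
    by_cases hg : g = 1
    · subst hg; simp
    · rw [h g hg, MonoidAlgebra.coeff_single, Finsupp.single_eq_of_ne hg]
  rw [h1, tr_single]

/-- the matrix version -/
noncomputable def Tr {κ μ : Type} (M : Matrix κ μ (MonoidAlgebra ℤ G)) :
    Matrix κ μ (MonoidAlgebra ℤ G) := M.map tr

theorem Tr_mul {κ μ ν : Type} [Fintype μ] (M : Matrix κ μ (MonoidAlgebra ℤ G))
    (N : Matrix μ ν (MonoidAlgebra ℤ G)) : Tr (M * N) = Tr M * Tr N := by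
  have h : ∀ {κ μ : Type} (M : Matrix κ μ (MonoidAlgebra ℤ G)),
    Tr M = M.map (MonoidAlgebra.mapDomainRingHom ℤ (1 : G →* G)) := fun _ => rfl
  rw [h, h, h, Matrix.map_mul]

theorem Tr_add {κ μ : Type} (M N : Matrix κ μ (MonoidAlgebra ℤ G)) : Tr (M + N) = Tr M + Tr N := by
  ext1 i j
  exact tr_add _ _

theorem Tr_one {κ : Type} [DecidableEq κ] : Tr (1 : Matrix κ κ (MonoidAlgebra ℤ G)) = 1 := by
  have h : ∀ {κ μ : Type} (M : Matrix κ μ (MonoidAlgebra ℤ G)),
    Tr M = M.map (MonoidAlgebra.mapDomainRingHom ℤ (1 : G →* G)) := fun _ => rfl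
  rw [h, Matrix.map_one _ (map_zero _) (map_one _)]

theorem Tr_adj {κ μ : Type} (M : Matrix κ μ (MonoidAlgebra ℤ G)) : Tr (adj M) = adj (Tr M) := by
  ext1 i j
  show tr (bar (M j i)) = bar (tr (M j i))
  rw [tr_bar, bar_tr]

/-- forms whose symmetrisation is integral are integral -/
theorem exists_chi {κ : Type} (htf : ∀ g : G, ∀ k : ℕ, 0 < k → g ^ k = 1 → g = 1)
    (Φ : Matrix κ κ (MonoidAlgebra ℤ G))
    (h : ∀ i j g, g ≠ 1 → ((Φ + adj Φ) i j).coeff g = 0) :
    ∃ χ, Φ = Tr Φ + (χ - adj χ) := by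
  have h0 : Tr (Φ + adj Φ) = Φ + adj Φ := by
    ext1 i j
    exact tr_of _ (h i j)
  have h1 : ∀ i j g, ((Φ - Tr Φ) i j).coeff g + 1 * ((Φ - Tr Φ) j i).coeff g⁻¹ = 0 := by
    intro i j g
    have h2 := congrArg (fun M : Matrix κ κ (MonoidAlgebra ℤ G) => (M i j).coeff g) h0
    rw [Tr_add, Tr_adj] at h2
    simp only [Matrix.add_apply, coeff_add', coeff_adj] at h2
    simp only [Matrix.sub_apply, coeff_sub']
    linarith
  obtain ⟨χ, hχ⟩ := exists_alt (fun g hg => htf g 2 two_pos (by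
      rw [sq]; nth_rewrite 2 [hg]; exact mul_inv_cancel g)) 1 (Φ - Tr Φ) h1 (fun i => by
      have := h1 i i 1
      rw [inv_one] at this
      linarith)
  refine ⟨χ, ?_⟩
  rw [one_smul] at hχ
  rw [← hχ]
  abel

theorem adj_chi {κ : Type} [Fintype κ] (A χ : Matrix κ κ (MonoidAlgebra ℤ G)) :
    A * (χ - adj χ) * adj A = A * χ * adj A - adj (A * χ * adj A) := by
  rw [adj_mul, adj_mul, adj_adj, Matrix.mul_sub, Matrix.sub_mul, ← Matrix.mul_assoc]

/-- isometry with the augmented form -/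
theorem exists_iso {κ : Type} [Fintype κ] [DecidableEq κ]
    (htf : ∀ g : G, ∀ k : ℕ, 0 < k → g ^ k = 1 → g = 1)
    (ψ E E' : Matrix κ κ (MonoidAlgebra ℤ G)) (_ : E * E' = 1) (h2 : E' * E = 1)
    (h : ∀ i j g, g ≠ 1 → ((E * (ψ + adj ψ) * adj E) i j).coeff g = 0) :
    ∃ χ, (Tr E' * E) * ψ * adj (Tr E' * E) = Tr ψ + (χ - adj χ) := by
  have h3 : E * (ψ + adj ψ) * adj E = E * ψ * adj E + adj (E * ψ * adj E) := by
    rw [adj_mul, adj_mul, adj_adj, Matrix.mul_add, Matrix.add_mul, ← Matrix.mul_assoc]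
  rw [h3] at h
  obtain ⟨χ, hχ⟩ := exists_chi htf _ h
  refine ⟨Tr E' * χ * adj (Tr E'), ?_⟩
  have h4 : Tr E' * Tr E = 1 := by rw [← Tr_mul, h2, Tr_one]
  have h5 : adj (Tr E) * adj (Tr E') = 1 := by rw [← adj_mul, h4, adj_one]
  calc Tr E' * E * ψ * adj (Tr E' * E) = Tr E' * (E * ψ * adj E) * adj (Tr E') := by
        rw [adj_mul]
        simp only [Matrix.mul_assoc]
    _ = Tr E' * (Tr (E * ψ * adj E) + (χ - adj χ)) * adj (Tr E') := by rw [← hχ]
    _ = Tr E' * Tr (E * ψ * adj E) * adj (Tr E') + Tr E' * (χ - adj χ) * adj (Tr E') := by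
        rw [Matrix.mul_add, Matrix.add_mul]
    _ = Tr ψ + (Tr E' * χ * adj (Tr E') - adj (Tr E' * χ * adj (Tr E'))) := by
        rw [adj_chi, Tr_mul, Tr_mul, Tr_adj]
        congr 1
        calc Tr E' * (Tr E * Tr ψ * adj (Tr E)) * adj (Tr E')
            = (Tr E' * Tr E) * Tr ψ * (adj (Tr E) * adj (Tr E')) := by
              simp only [Matrix.mul_assoc]
          _ = Tr ψ := by rw [h4, h5, Matrix.one_mul, Matrix.mul_one]

theorem fm_add_mat (Λ Λ' : Matrix (Fin n) (Fin n) (MonoidAlgebra ℤ G)) (x y : Vec G n) :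
    fm (Λ + Λ') x y = fm Λ x y + fm Λ' x y := by
  unfold fm
  rw [← Finset.sum_add_distrib]
  refine Finset.sum_congr rfl fun i _ => ?_
  rw [← Finset.sum_add_distrib]
  exact Finset.sum_congr rfl fun j _ => by rw [Matrix.add_apply, mul_add, add_mul]

theorem fm_adj (Λ : Matrix (Fin n) (Fin n) (MonoidAlgebra ℤ G)) (x y : Vec G n) :
    fm (adj Λ) x y = bar (fm Λ y x) := by
  unfold fm
  rw [bar_sum]
  simp only [bar_sum]
  rw [Finset.sum_comm]
  refine Finset.sum_congr rfl fun i _ => Finset.sum_congr rfl fun j _ => ?_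
  rw [bar_mul, bar_mul, bar_bar, ← mul_assoc]
  rfl

theorem Bf_self (ψ : Matrix (Fin n) (Fin n) (MonoidAlgebra ℤ G)) (x : Vec G n) :
    Bf (ψ + adj ψ) x x = 2 * (fm ψ x x).coeff 1 := by
  rw [Bf_apply, fm_add_mat, fm_adj, coeff_add', coeff_bar, inv_one]
  ring

theorem mul_fm {m m' : ℕ} (Λ : Matrix (Fin n) (Fin n) (MonoidAlgebra ℤ G))
    (E : Matrix (Fin m) (Fin n) (MonoidAlgebra ℤ G))
    (F : Matrix (Fin m') (Fin n) (MonoidAlgebra ℤ G)) (k : Fin m) (l : Fin m') :
    (E * Λ * adj F) k l = fm Λ (E k) (F l) := by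
  rw [Matrix.mul_apply]
  unfold fm
  rw [Finset.sum_comm]
  refine Finset.sum_congr rfl fun j _ => ?_
  rw [Matrix.mul_apply, Finset.sum_mul]
  rfl

theorem rank_le {Λ : Matrix (Fin n) (Fin n) (MonoidAlgebra ℤ G)}
    (hpos : ∀ x, x ≠ 0 → 0 < Bf Λ x x) {L : AddSubgroup (Vec G n)}
    (ho : ∀ x ∈ L, ∀ y ∈ L, ∀ g : G, g ≠ 1 → Bf Λ x (g • y) = 0) {m : ℕ} (b : Fin m → Vec G n)
    (hb : ∀ k, b k ∈ L) (hind : ∀ a : Fin m → MonoidAlgebra ℤ G, ∑ k, a k • b k = 0 → a = 0) :
    m ≤ n := by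
  let ε : MonoidAlgebra ℤ G →+* ℤ := (MonoidAlgebra.lift ℤ ℤ G (1 : G →* ℤ)).toRingHom
  let f : (Fin m → ℤ) →ₗ[ℤ] (Fin n → ℤ) :=
    { toFun := fun c i => ε ((∑ k, c k • b k) i)
      map_add' := by
        intro c c'
        funext i
        simp only [Pi.add_apply, add_smul, Finset.sum_add_distrib, map_add]
      map_smul' := by
        intro r c
        funext i
        have h : ∑ k, (r • c) k • b k = r • ∑ k, c k • b k := by
          rw [Finset.smul_sum]
          exact Finset.sum_congr rfl fun k _ => by rw [Pi.smul_apply, smul_assoc]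
        rw [h, Pi.smul_apply, map_zsmul]
        rfl }
  refine le_of_fin_injective ℤ f ?_
  rw [injective_iff_map_eq_zero]
  intro c hc
  obtain ⟨y, hy⟩ : ∃ y, y = ∑ k, c k • b k := ⟨_, rfl⟩
  have hy1 : ∀ i, ε (y i) = 0 := by
    intro i
    rw [hy]
    exact congrFun hc i
  have hyL : y ∈ L := by
    rw [hy]
    exact AddSubgroup.sum_mem _ fun k _ => AddSubgroup.zsmul_mem _ (hb k) _
  have h1 : fm Λ y y = MonoidAlgebra.single 1 (Bf Λ y y) := by
    ext g
    rw [coeff_fm]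
    by_cases hg : g = 1
    · subst hg
      rw [one_smul]
      simp
    · rw [ho y hyL y hyL g hg]
      simp [Ne.symm hg]
  have h2 : ε (fm Λ y y) = 0 := by
    unfold fm
    rw [map_sum]
    refine Finset.sum_eq_zero fun i _ => ?_
    rw [map_sum]
    refine Finset.sum_eq_zero fun j _ => ?_
    rw [map_mul, map_mul, hy1, zero_mul, zero_mul]
  have h3 : ε (MonoidAlgebra.single 1 (Bf Λ y y)) = Bf Λ y y := by
    show (MonoidAlgebra.lift ℤ ℤ G (1 : G →* ℤ)) _ = _
    rw [MonoidAlgebra.lift_single]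
    simp
  rw [h1, h3] at h2
  have hy0 : y = 0 := by
    by_contra hne
    have := hpos y hne
    omega
  have h4 := hind (fun k => MonoidAlgebra.single 1 (c k)) (by
    rw [← hy0, hy]
    refine Finset.sum_congr rfl fun k _ => ?_
    rw [single_smul, one_smul])
  funext k
  have h5 := congrArg (fun a : MonoidAlgebra ℤ G => a.coeff 1) (congrFun h4 k)
  simpa using h5

/-- **forms generated by vectors of length two** -/
theorem main (htf : ∀ g : G, ∀ k : ℕ, 0 < k → g ^ k = 1 → g = 1)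
    (ψ K : Matrix (Fin n) (Fin n) (MonoidAlgebra ℤ G))
    (h1 : (ψ + adj ψ) * K = 1) (h2 : K * (ψ + adj ψ) = 1)
    (hpos : ∀ x : Vec G n, x ≠ 0 → 0 < (fm ψ x x).coeff 1) :
    (∃ (m : ℕ) (b : Fin m → Vec G n), m ≤ n ∧
      (∀ a : Fin m → MonoidAlgebra ℤ G, ∑ k, a k • b k = 0 → a = 0) ∧
      Submodule.span (MonoidAlgebra ℤ G) (Set.range b) =
        Submodule.span (MonoidAlgebra ℤ G) {x | (fm ψ x x).coeff 1 = 1} ∧
      ∀ k l g, g ≠ 1 → (fm (ψ + adj ψ) (b k) (b l)).coeff g = 0) ∧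
    (Submodule.span (MonoidAlgebra ℤ G) {x : Vec G n | (fm ψ x x).coeff 1 = 1} = ⊤ →
      ∃ E E' χ : Matrix (Fin n) (Fin n) (MonoidAlgebra ℤ G), E * E' = 1 ∧ E' * E = 1 ∧
        E * ψ * adj E = Tr ψ + (χ - adj χ)) ∧
    ((∀ i, (ψ i i).coeff 1 = 1) →
      ∃ (u : Fin n → G) (χ : Matrix (Fin n) (Fin n) (MonoidAlgebra ℤ G)),
        Dm u * ψ * adj (Dm u) = Tr ψ + (χ - adj χ)) := by
  classical
  have hΛ : adj (ψ + adj ψ) = ψ + adj ψ := by rw [adj_add, adj_adj, add_comm]
  have hpos' : ∀ x, x ≠ 0 → 0 < Bf (ψ + adj ψ) x x := by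
    intro x hx
    rw [Bf_self]
    have := hpos x hx
    omega
  have heven : ∀ x, Even (Bf (ψ + adj ψ) x x) := by
    intro x
    rw [Bf_self]
    exact even_two_mul _
  have hset : {x : Vec G n | Bf (ψ + adj ψ) x x = 2} = {x | (fm ψ x x).coeff 1 = 1} := by
    ext x
    rw [Set.mem_ofPred_eq, Set.mem_ofPred_eq, Bf_self]
    omega
  obtain ⟨L, m, b, hort, hroot, hbL, hind, hspan⟩ := root_part htf hΛ h1 h2 hpos' heven
  rw [hset] at hspan
  have hint : ∀ x ∈ L, ∀ y ∈ L, ∀ g, g ≠ 1 → (fm (ψ + adj ψ) x y).coeff g = 0 := by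
    intro x hx y hy g hg
    rw [coeff_fm]
    exact hort x hx y hy g hg
  refine ⟨⟨m, b, rank_le hpos' hort b hbL hind, hind, hspan, fun k l g hg => hint _ (hbL k) _ (hbL l) g hg⟩, ?_, ?_⟩
  · intro htop
    rw [htop] at hspan
    have hex : ∀ x : Vec G n, ∃ a : Fin m → MonoidAlgebra ℤ G, ∑ k, a k • b k = x := by
      intro x
      have hx : x ∈ Submodule.span (MonoidAlgebra ℤ G) (Set.range b) := by rw [hspan]; trivial
      exact (Submodule.mem_span_range_iff_exists_fun _).1 hx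
    choose a ha using hex
    obtain ⟨E, hE⟩ : ∃ E : Matrix (Fin m) (Fin n) (MonoidAlgebra ℤ G), E = fun k j => b k j :=
      ⟨_, rfl⟩
    obtain ⟨E', hE'⟩ : ∃ E' : Matrix (Fin n) (Fin m) (MonoidAlgebra ℤ G),
      E' = fun j k => a (Pi.single j 1) k := ⟨_, rfl⟩
    have hrow : ∀ (c : Fin m → MonoidAlgebra ℤ G) (j : Fin n),
        (∑ k, c k • b k) j = ∑ k, c k * E k j := by
      intro c j
      rw [Finset.sum_apply, hE]
      rfl
    have e1 : E' * E = 1 := by
      ext1 i j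
      rw [Matrix.mul_apply, hE', ← hrow, ha, Matrix.one_apply, Pi.single_apply]
      simp only [eq_comm]
    have e2 : E * E' = 1 := by
      ext1 k l
      have e3 : E * E' * E = E := by rw [Matrix.mul_assoc, e1, Matrix.mul_one]
      obtain ⟨D, hD⟩ : ∃ D : Matrix (Fin m) (Fin m) (MonoidAlgebra ℤ G), D = E * E' - 1 := ⟨_, rfl⟩
      have e4 := hind (fun l => D k l) (by
        funext j
        rw [hrow]
        have e5 : (D * E) k j = 0 := by
          rw [hD, Matrix.sub_mul, e3, Matrix.one_mul, sub_self]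
          rfl
        rw [Matrix.mul_apply] at e5
        exact e5)
      have e6 : D k l = 0 := congrFun e4 l
      rw [hD, Matrix.sub_apply] at e6
      exact sub_eq_zero.1 e6
    have hmn : m = n := by
      let ε : MonoidAlgebra ℤ G →+* ℤ := (MonoidAlgebra.lift ℤ ℤ G (1 : G →* ℤ)).toRingHom
      have e3 : E.map ε * E'.map ε = 1 := by
        rw [← Matrix.map_mul, e2, Matrix.map_one _ (map_zero _) (map_one _)]
      have e4 : E'.map ε * E.map ε = 1 := by
        rw [← Matrix.map_mul, e1, Matrix.map_one _ (map_zero _) (map_one _)]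
      have e5 := Matrix.square_of_invertible _ _ e3 e4
      simpa using e5
    subst hmn
    obtain ⟨χ, hχ⟩ := exists_iso htf ψ E E' e2 e1 (fun i j g hg => by
      rw [mul_fm, hE]
      exact hint _ (hbL i) _ (hbL j) g hg)
    refine ⟨Tr E' * E, E' * Tr E, χ, ?_, ?_, hχ⟩
    · calc Tr E' * E * (E' * Tr E) = Tr E' * (E * E') * Tr E := by simp only [Matrix.mul_assoc]
        _ = 1 := by rw [e2, Matrix.mul_one, ← Tr_mul, e1, Tr_one]
    · calc E' * Tr E * (Tr E' * E) = E' * (Tr E * Tr E') * E := by simp only [Matrix.mul_assoc]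
        _ = 1 := by rw [← Tr_mul, e2, Tr_one, Matrix.mul_one, e1]
  · intro hdiag
    obtain ⟨e, he⟩ : ∃ e : Fin n → Vec G n, e = fun i => Pi.single i 1 := ⟨_, rfl⟩
    have hfe : ∀ i j, fm ψ (e i) (e j) = ψ i j := by
      intro i j
      rw [he]
      unfold fm
      rw [Finset.sum_eq_single_of_mem i (Finset.mem_univ _)]
      · rw [Finset.sum_eq_single_of_mem j (Finset.mem_univ _)]
        · simp
        · intro k _ hk
          simp [hk]
      · intro k _ hk
        refine Finset.sum_eq_zero fun l _ => ?_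
        simp [hk]
    have hre : ∀ i, Bf (ψ + adj ψ) (e i) (e i) = 2 := by
      intro i
      rw [Bf_self, hfe, hdiag]
      norm_num
    choose u hu using fun i => hroot (e i) (hre i)
    refine ⟨u, ?_⟩
    have hDu := Dm_mul_inv u
    obtain ⟨χ, hχ⟩ := exists_iso htf ψ (Dm u) (adj (Dm u)) hDu.1 hDu.2 (fun i j g hg => by
      have e1 : ∀ i, (Dm u) i = u i • e i := by
        intro i
        funext j
        rw [act_apply, he]
        show Matrix.diagonal (fun i => MonoidAlgebra.single (u i) 1) i j =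
          MonoidAlgebra.single (u i) 1 * (Pi.single i 1 : Vec G n) j
        rw [Matrix.diagonal_apply, Pi.single_apply]
        by_cases h : i = j
        · rw [if_pos h, if_pos h.symm, mul_one]
        · rw [if_neg h, if_neg (Ne.symm h), mul_zero]
      rw [mul_fm, e1, e1]
      exact hint _ (hu i) _ (hu j) g hg)
    refine ⟨χ, ?_⟩
    have e2 : Tr (adj (Dm u)) = 1 := by
      have e3 : Tr (Dm u) = 1 := by
        ext1 i j
        show tr (Dm u i j) = _
        unfold Dm
        rw [Matrix.diagonal_apply, Matrix.one_apply]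
        by_cases h : i = j
        · rw [if_pos h, if_pos h, tr_single, MonoidAlgebra.one_def]
        · rw [if_neg h, if_neg h, tr_eq, map_zero]
      rw [Tr_adj, e3, adj_one]
    rw [e2, Matrix.one_mul] at hχ
    exact hχ

end Pool.Agent.V5helper32.DF
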