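import Pool.Agent.V5helper32.DF.Abs
import Pool.Agent.TH6.LF.Blk

/-!
# The trace form of a hermitian form over an integral group ring
-/

set_option autoImplicit false

namespace Pool.Agent.V5helper32.DF

open Matrix TH6.LF

variable {G : Type} [Group G] {n : ℕ}

/-- row vectors -/
abbrev Vec (G : Type) [Group G] (n : ℕ) : Type := Fin n → MonoidAlgebra ℤ G

/-- the action of the group on row vectors -/
@[reducible] noncomputable def act : DistribMulAction G (Vec G n) where
  smul g x := fun i => MonoidAlgebra.single g 1 * x i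
  one_smul x := by
    funext i
    show MonoidAlgebra.single 1 1 * x i = x i
    rw [← MonoidAlgebra.one_def, one_mul]
  mul_smul g k x := by
    funext i
    show MonoidAlgebra.single (g * k) 1 * x i =
      MonoidAlgebra.single g 1 * (MonoidAlgebra.single k 1 * x i)
    rw [← mul_assoc, MonoidAlgebra.single_mul_single, one_mul]
  smul_zero g := by
    funext i
    exact mul_zero _
  smul_add g x y := by
    funext i
    exact mul_add _ _ _

attribute [local instance] act

theorem act_apply (g : G) (x : Vec G n) (i : Fin n) :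
    (g • x) i = MonoidAlgebra.single g 1 * x i := rfl

theorem coeff_act (g : G) (x : Vec G n) (i : Fin n) (k : G) :
    ((g • x) i).coeff k = (x i).coeff (g⁻¹ * k) := by
  rw [act_apply, MonoidAlgebra.coeff_single_mul_apply, one_mul]

variable (Λ : Matrix (Fin n) (Fin n) (MonoidAlgebra ℤ G))

/-- the values of the form -/
noncomputable def fm (x y : Vec G n) : MonoidAlgebra ℤ G :=
  ∑ i, ∑ j, x i * Λ i j * bar (y j)

theorem fm_add_left (x x' y : Vec G n) : fm Λ (x + x') y = fm Λ x y + fm Λ x' y := by
  unfold fm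
  rw [← Finset.sum_add_distrib]
  refine Finset.sum_congr rfl fun i _ => ?_
  rw [← Finset.sum_add_distrib]
  exact Finset.sum_congr rfl fun j _ => by rw [Pi.add_apply, add_mul, add_mul]

theorem fm_add_right (x y y' : Vec G n) : fm Λ x (y + y') = fm Λ x y + fm Λ x y' := by
  unfold fm
  rw [← Finset.sum_add_distrib]
  refine Finset.sum_congr rfl fun i _ => ?_
  rw [← Finset.sum_add_distrib]
  exact Finset.sum_congr rfl fun j _ => by rw [Pi.add_apply, bar_add, mul_add]

theorem fm_mul_left (a : MonoidAlgebra ℤ G) (x y : Vec G n) :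
    fm Λ (fun i => a * x i) y = a * fm Λ x y := by
  unfold fm
  rw [Finset.mul_sum]
  refine Finset.sum_congr rfl fun i _ => ?_
  rw [Finset.mul_sum]
  exact Finset.sum_congr rfl fun j _ => by rw [mul_assoc, mul_assoc, mul_assoc]

theorem fm_mul_right (a : MonoidAlgebra ℤ G) (x y : Vec G n) :
    fm Λ x (fun i => a * y i) = fm Λ x y * bar a := by
  unfold fm
  rw [Finset.sum_mul]
  refine Finset.sum_congr rfl fun i _ => ?_
  rw [Finset.sum_mul]
  exact Finset.sum_congr rfl fun j _ => by rw [bar_mul, mul_assoc, mul_assoc, mul_assoc]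

theorem bar_fm (hΛ : adj Λ = Λ) (x y : Vec G n) : bar (fm Λ x y) = fm Λ y x := by
  unfold fm
  rw [bar_sum]
  simp only [bar_sum]
  rw [Finset.sum_comm]
  refine Finset.sum_congr rfl fun i _ => Finset.sum_congr rfl fun j _ => ?_
  rw [bar_mul, bar_mul, bar_bar, ← mul_assoc]
  congr 2
  conv_rhs => rw [← hΛ]
  rfl

/-- the coefficient at the identity of the form, for fixed first argument -/
noncomputable def Bf1 (x : Vec G n) : Vec G n →+ ℤ where
  toFun y := (fm Λ x y).coeff 1
  map_zero' := by
    have h := fm_add_right Λ x 0 0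
    rw [add_zero] at h
    have h1 := congrArg (fun a : MonoidAlgebra ℤ G => a.coeff 1) h
    simp only [coeff_add'] at h1
    omega
  map_add' y y' := by
    have h1 := congrArg (fun a : MonoidAlgebra ℤ G => a.coeff 1) (fm_add_right Λ x y y')
    simpa only [coeff_add'] using h1

theorem Bf1_apply (x y : Vec G n) : Bf1 Λ x y = (fm Λ x y).coeff 1 := rfl

/-- the coefficient at the identity of the form -/
noncomputable def Bf : Vec G n →+ Vec G n →+ ℤ :=
  AddMonoidHom.mk' (Bf1 Λ) (by
    intro x x'
    apply AddMonoidHom.ext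
    intro y
    rw [AddMonoidHom.add_apply, Bf1_apply, Bf1_apply, Bf1_apply, fm_add_left, coeff_add'])

theorem Bf_apply (x y : Vec G n) : Bf Λ x y = (fm Λ x y).coeff 1 := rfl

theorem coeff_fm (x y : Vec G n) (g : G) : (fm Λ x y).coeff g = Bf Λ x (g • y) := by
  rw [Bf_apply]
  have h1 : fm Λ x (g • y) = fm Λ x y * bar (MonoidAlgebra.single g 1) :=
    fm_mul_right Λ _ x y
  rw [h1, bar_single, MonoidAlgebra.coeff_mul_single_apply, inv_inv, one_mul, mul_one]

theorem Bf_symm (hΛ : adj Λ = Λ) (x y : Vec G n) : Bf Λ x y = Bf Λ y x := by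
  rw [Bf_apply, Bf_apply, ← bar_fm Λ hΛ y x, coeff_bar, inv_one]

theorem Bf_inv (g : G) (x y : Vec G n) : Bf Λ (g • x) (g • y) = Bf Λ x y := by
  have h1 : fm Λ (g • x) (g • y) =
      MonoidAlgebra.single g 1 * (fm Λ x y * bar (MonoidAlgebra.single g 1)) := by
    rw [← fm_mul_right, ← fm_mul_left]
    rfl
  rw [Bf_apply, h1, bar_single, MonoidAlgebra.coeff_single_mul_apply,
    MonoidAlgebra.coeff_mul_single_apply]
  simp [Bf_apply]

theorem free_act (htf : ∀ g : G, ∀ k : ℕ, 0 < k → g ^ k = 1 → g = 1) (g : G) (x : Vec G n) (k : ℕ)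
    (hk : 0 < k) (hx : x ≠ 0) (h : g ^ k • x = x) : g = 1 := by
  classical
  obtain ⟨i, hi⟩ : ∃ i, x i ≠ 0 := by
    by_contra hcon
    push Not at hcon
    exact hx (funext hcon)
  obtain ⟨u, hu⟩ : ∃ u, (x i).coeff u ≠ 0 := by
    by_contra hcon
    push Not at hcon
    exact hi (by ext u; simp [hcon u])
  have hstep : ∀ v, (x i).coeff v ≠ 0 → (x i).coeff (g ^ k * v) ≠ 0 := by
    intro v hv
    rw [← h, coeff_act, inv_mul_cancel_left]
    exact hv
  have hall : ∀ m : ℕ, (x i).coeff ((g ^ k) ^ m * u) ≠ 0 := by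
    intro m
    induction m with
    | zero => rw [pow_zero, one_mul]; exact hu
    | succ m ih => rw [pow_succ', mul_assoc]; exact hstep _ ih
  obtain ⟨a, b, hab, heq⟩ : ∃ a b : ℕ, a < b ∧ (g ^ k) ^ a * u = (g ^ k) ^ b * u := by
    by_contra hcon
    push Not at hcon
    have hinj : Function.Injective fun m : ℕ => (g ^ k) ^ m * u := by
      intro a b hab
      rcases lt_trichotomy a b with h1 | h1 | h1
      · exact absurd hab (hcon a b h1)
      · exact h1
      · exact absurd hab.symm (hcon b a h1)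
    refine Set.infinite_range_of_injective hinj
      (((x i).coeff.support.finite_toSet).subset ?_)
    rintro _ ⟨m, rfl⟩
    exact Finsupp.mem_support_iff.2 (hall m)
  have h1 : (g ^ k) ^ a = (g ^ k) ^ b := mul_right_cancel heq
  have h2 : (g ^ k) ^ (b - a) = 1 := by
    have h3 : (g ^ k) ^ b = (g ^ k) ^ a * (g ^ k) ^ (b - a) := by
      rw [← pow_add]; congr 1; omega
    rw [h3] at h1
    exact (mul_eq_left.1 h1.symm)
  rw [← pow_mul] at h2
  exact htf g _ (Nat.mul_pos hk (by omega)) h2

/-! ### the support -/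

open Classical in
/-- the group elements which occur in a row vector -/
noncomputable def sp (x : Vec G n) : Finset G := Finset.univ.biUnion fun i => (x i).coeff.support

theorem mem_sp {x : Vec G n} {g : G} : g ∈ sp x ↔ ∃ i, (x i).coeff g ≠ 0 := by
  simp [sp]

theorem sp_eq_empty {x : Vec G n} (h : sp x = ∅) : x = 0 := by
  funext i
  ext g
  by_contra hne
  have : g ∈ sp x := mem_sp.2 ⟨i, hne⟩
  rw [h] at this
  simp at this

open Classical in
/-- the part of a row vector on a set of group elements -/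
noncomputable def res (T : Set G) (x : Vec G n) : Vec G n := fun i =>
  .ofCoeff ((x i).coeff.filter (· ∈ T))

open Classical in
theorem coeff_res (T : Set G) (x : Vec G n) (i : Fin n) (g : G) :
    (res T x i).coeff g = if g ∈ T then (x i).coeff g else 0 := by
  simp only [res, Finsupp.filter_apply]

theorem res_add_compl (T : Set G) (x : Vec G n) : res T x + res Tᶜ x = x := by
  classical
  funext i
  ext g
  rw [Pi.add_apply, coeff_add', coeff_res, coeff_res]
  by_cases h : g ∈ T <;> simp [h]

theorem mem_sp_res {T : Set G} {x : Vec G n} {g : G} : g ∈ sp (res T x) ↔ g ∈ T ∧ g ∈ sp x := by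
  classical
  rw [mem_sp, mem_sp]
  simp only [coeff_res]
  constructor
  · rintro ⟨i, hi⟩
    by_cases h : g ∈ T
    · rw [if_pos h] at hi
      exact ⟨h, i, hi⟩
    · rw [if_neg h] at hi
      exact absurd rfl hi
  · rintro ⟨h, i, hi⟩
    exact ⟨i, by rw [if_pos h]; exact hi⟩

open Classical in
/-- the group elements of the entries of the matrix, and the identity -/
noncomputable def Sf : Finset G :=
  insert 1 (Finset.univ.biUnion fun i => Finset.univ.biUnion fun j => (Λ i j).coeff.support)

theorem locality {x y : Vec G n} (h : Bf Λ x y ≠ 0) :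
    ∃ g ∈ sp x, ∃ g' ∈ sp y, g⁻¹ * g' ∈ Sf Λ := by
  classical
  by_contra hcon
  push Not at hcon
  apply h
  rw [Bf_apply]
  unfold fm
  rw [MonoidAlgebra.coeff_sum, Finsupp.finsetSum_apply]
  refine Finset.sum_eq_zero fun i _ => ?_
  rw [MonoidAlgebra.coeff_sum, Finsupp.finsetSum_apply]
  refine Finset.sum_eq_zero fun j _ => ?_
  rw [MonoidAlgebra.coeff_mul_apply_right, Finsupp.sum]
  refine Finset.sum_eq_zero fun k hk => ?_
  have hk1 : (y j).coeff k⁻¹ ≠ 0 := by
    have := Finsupp.mem_support_iff.1 hk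
    rwa [coeff_bar] at this
  have h1 : (x i * Λ i j).coeff (1 * k⁻¹) = 0 := by
    rw [MonoidAlgebra.coeff_mul_apply_left, Finsupp.sum]
    refine Finset.sum_eq_zero fun g hg => ?_
    have hg1 : (x i).coeff g ≠ 0 := Finsupp.mem_support_iff.1 hg
    have h2 := hcon g (mem_sp.2 ⟨i, hg1⟩) k⁻¹ (mem_sp.2 ⟨j, hk1⟩)
    have h3 : (Λ i j).coeff (g⁻¹ * (1 * k⁻¹)) = 0 := by
      by_contra h4
      apply h2
      unfold Sf
      rw [one_mul] at h4
      simp only [Finset.mem_insert, Finset.mem_biUnion, Finset.mem_univ, true_and,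
        Finsupp.mem_support_iff]
      exact Or.inr ⟨i, j, h4⟩
    rw [h3, mul_zero]
  rw [h1, zero_mul]

end Pool.Agent.V5helper32.DF
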