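import Pool.Agent.V5helper32.DF.Bas

/-!
# Definite quadratic forms generated by vectors of length two are extended: the root part
-/

set_option autoImplicit false

namespace Pool.Agent.V5helper32.DF

open Matrix TH6.LF

variable {G : Type} [Group G] {n : ℕ}

attribute [local instance] act

variable {Λ K : Matrix (Fin n) (Fin n) (MonoidAlgebra ℤ G)}

theorem lat (htf : ∀ g : G, ∀ k : ℕ, 0 < k → g ^ k = 1 → g = 1) (hΛ : adj Λ = Λ)
    (h1 : Λ * K = 1) (h2 : K * Λ = 1)
    (hpos : ∀ x, x ≠ 0 → 0 < Bf Λ x x) (heven : ∀ x, Even (Bf Λ x x)) : Lat G (Bf Λ) where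
  symm := Bf_symm Λ hΛ
  inv := Bf_inv Λ
  pos := hpos
  fin := fin_nbr hΛ h1 h2 hpos heven
  free := fun g x k hk hx h => free_act htf g x k hk hx h

theorem closure_le_span (S : Set (Vec G n)) {x : Vec G n} (hx : x ∈ AddSubgroup.closure S) :
    x ∈ Submodule.span (MonoidAlgebra ℤ G) S := by
  induction hx using AddSubgroup.closure_induction with
  | mem x hx => exact Submodule.subset_span hx
  | zero => exact Submodule.zero_mem _
  | add a b _ _ ha hb => exact Submodule.add_mem _ ha hb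
  | neg a _ ha => exact Submodule.neg_mem _ ha

theorem smul_eq (g : G) (x : Vec G n) :
    g • x = (MonoidAlgebra.single g 1 : MonoidAlgebra ℤ G) • x := by
  rw [single_smul, one_smul]

theorem Cl_le_span {S : Set (Vec G n)} {L : AddSubgroup (Vec G n)}
    (h : ∀ x ∈ L, x ∈ Submodule.span (MonoidAlgebra ℤ G) S) {x : Vec G n} (hx : x ∈ Cl L) :
    x ∈ Submodule.span (MonoidAlgebra ℤ G) S := by
  induction hx using AddSubgroup.closure_induction with
  | mem x hx =>
    obtain ⟨g, y, hy, rfl⟩ := hx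
    rw [smul_eq]
    exact Submodule.smul_mem _ _ (h y hy)
  | zero => exact Submodule.zero_mem _
  | add a b _ _ ha hb => exact Submodule.add_mem _ ha hb
  | neg a _ ha => exact Submodule.neg_mem _ ha

/-- **the root part** -/
theorem root_part (htf : ∀ g : G, ∀ k : ℕ, 0 < k → g ^ k = 1 → g = 1) (hΛ : adj Λ = Λ)
    (h1 : Λ * K = 1) (h2 : K * Λ = 1)
    (hpos : ∀ x, x ≠ 0 → 0 < Bf Λ x x) (heven : ∀ x, Even (Bf Λ x x)) :
    ∃ (L : AddSubgroup (Vec G n)) (m : ℕ) (b : Fin m → Vec G n),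
      (∀ x ∈ L, ∀ y ∈ L, ∀ g : G, g ≠ 1 → Bf Λ x (g • y) = 0) ∧
      (∀ r, Bf Λ r r = 2 → ∃ g : G, g • r ∈ L) ∧
      (∀ k, b k ∈ L) ∧ (∀ a : Fin m → MonoidAlgebra ℤ G, ∑ k, a k • b k = 0 → a = 0) ∧
      Submodule.span (MonoidAlgebra ℤ G) (Set.range b) =
        Submodule.span (MonoidAlgebra ℤ G) {x | Bf Λ x x = 2} := by
  classical
  have hLat := lat htf hΛ h1 h2 hpos heven
  obtain ⟨L, hort, hroot, hgen⟩ := hLat.exists_sub
  have hrCl : ∀ r, Bf Λ r r = 2 → r ∈ Cl L := by
    intro r hr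
    obtain ⟨g, hg⟩ := hroot r hr
    exact AddSubgroup.subset_closure ⟨g⁻¹, g • r, hg, (inv_smul_smul g r).symm⟩
  -- finitely many orbits
  have hF := fin_orb hΛ h1 h2 hpos heven
  have htrans : ∀ r, Bf Λ r r = 2 → ∃ g : G, (g • r) ∈ hF.toFinset := by
    intro r hr
    have hr0 : r ≠ 0 := hLat.root_ne hr
    obtain ⟨g0, hg0⟩ : (sp r).Nonempty := by
      rw [Finset.nonempty_iff_ne_empty]
      exact fun h => hr0 (sp_eq_empty h)
    refine ⟨g0⁻¹, ?_⟩
    rw [Set.Finite.mem_toFinset]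
    refine ⟨by rw [Bf_inv]; exact hr, ?_⟩
    obtain ⟨i, hi⟩ := mem_sp.1 hg0
    exact mem_sp.2 ⟨i, by rw [coeff_act, inv_inv, mul_one]; exact hi⟩
  have hs : ∀ r ∈ hF.toFinset, ∃ s : Finset (Vec G n), (s : Set (Vec G n)) ⊆ L ∧
      r ∈ Cl (AddSubgroup.closure (s : Set (Vec G n))) := by
    intro r hr
    rw [Set.Finite.mem_toFinset] at hr
    exact Cl_fin (hrCl r hr.1)
  choose! s hs1 hs2 using hs
  obtain ⟨L1, hL1⟩ : ∃ L1 : AddSubgroup (Vec G n), L1 = AddSubgroup.closure
      ((hF.toFinset.biUnion s : Finset (Vec G n)) : Set (Vec G n)) := ⟨_, rfl⟩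
  have hle : L1 ≤ L := by
    rw [hL1, AddSubgroup.closure_le]
    intro x hx
    rw [Finset.mem_coe, Finset.mem_biUnion] at hx
    obtain ⟨r, hr, hx⟩ := hx
    exact hs1 r hr hx
  have hroot1 : ∀ r, Bf Λ r r = 2 → r ∈ Cl L1 := by
    intro r hr
    obtain ⟨g, hg⟩ := htrans r hr
    have h3 : g • r ∈ Cl L1 := by
      refine Cl_mono ?_ (hs2 _ hg)
      rw [hL1]
      apply AddSubgroup.closure_mono
      intro x hx
      rw [Finset.mem_coe, Finset.mem_biUnion]
      exact ⟨_, hg, hx⟩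
    have h4 := Cl_smul L1 (MonoidAlgebra.single g⁻¹ 1) h3
    rw [← smul_eq, inv_smul_smul] at h4
    exact h4
  have hL : L = L1 := by
    refine le_antisymm (fun x hx => mem_of_Cl hpos hle hort hx ?_) hle
    have h3 := hgen hx
    have h4 : AddSubgroup.closure {x | Bf Λ x x = 2} ≤ Cl L1 := by
      rw [AddSubgroup.closure_le]
      exact fun r hr => hroot1 r hr
    exact h4 h3
  have hfg : L.FG := by
    rw [hL, hL1]
    exact ⟨_, rfl⟩
  -- a basis
  let LL : Submodule ℤ (Vec G n) := AddSubgroup.toIntSubmodule L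
  have hLLfg : LL.FG := by
    rw [Submodule.fg_iff_addSubgroup_fg]
    exact hfg
  have : Module.Finite ℤ LL := Module.Finite.iff_fg.2 hLLfg
  have : Module.IsTorsionFree ℤ (Vec G n) := by
    infer_instance
  have : Module.Free ℤ LL := inferInstance
  let β := Module.finBasis ℤ LL
  refine ⟨L, Module.finrank ℤ LL, fun k => (β k : Vec G n), hort, hroot, fun k => (β k).2, ?_, ?_⟩
  · refine indep hpos hort _ (fun k => (β k).2) ?_
    intro c hc
    have h3 : ∑ k, c k • β k = 0 := by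
      apply Subtype.ext
      rw [Submodule.coe_sum]
      simpa using hc
    exact fun k => (Fintype.linearIndependent_iff.1 β.linearIndependent) c h3 k
  · apply le_antisymm
    · rw [Submodule.span_le]
      rintro _ ⟨k, rfl⟩
      exact closure_le_span _ (hgen (β k).2)
    · rw [Submodule.span_le]
      intro r hr
      refine Cl_le_span (L := L) ?_ (hrCl r hr)
      intro x hx
      have h3 : x = ∑ k, (β.repr ⟨x, hx⟩ k) • (β k : Vec G n) := by
        have h4 := congrArg (Subtype.val) (β.sum_repr ⟨x, hx⟩)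
        rw [Submodule.coe_sum] at h4
        simpa using h4.symm
      rw [h3]
      refine Submodule.sum_mem _ fun k _ => ?_
      have h5 : (β k : Vec G n) ∈ Submodule.span (MonoidAlgebra ℤ G)
          (Set.range fun k => (β k : Vec G n)) := Submodule.subset_span ⟨k, rfl⟩
      exact zsmul_mem h5 _

end Pool.Agent.V5helper32.DF
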